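import Pool.Agent.helper83.SC.CL
import Pool.Agent.helper18.SC.UP

open scoped Pointwise ContDiff
open MeasureTheory Set Filter Topology

namespace Pool.Agent.helper83.SC

theorem LO_rep {m : ℕ} (b : OrthonormalBasis (Fin (m + 1)) ℝ (E (m + 1))) {v : E (m + 1)}
    (hs : (coord b v).2 ≠ 0) :
    v = (coord b v).2 • emb b ((coord b v).2⁻¹ • (coord b v).1) := by
  have h3 : v = (∑ i : Fin m, inner ℝ (b i.castSucc) v • b i.castSucc)
      + inner ℝ (b (Fin.last m)) v • b (Fin.last m) := by
    conv_lhs => rw [← b.sum_repr' v]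
    rw [Fin.sum_univ_castSucc]
  conv_lhs => rw [h3]
  unfold emb
  rw [smul_add, Finset.smul_sum]
  congr 1
  refine Finset.sum_congr rfl fun i _ => ?_
  rw [smul_smul]
  congr 1
  have : ((coord b v).2⁻¹ • (coord b v).1) i = (coord b v).2⁻¹ * inner ℝ (b i.castSucc) v := by
    simp [coord]
  rw [this, mul_inv_cancel_left₀ hs]

/-- points of the sphere seen near the last basis vector -/
theorem LO_near {m : ℕ} (b : OrthonormalBasis (Fin (m + 1)) ℝ (E (m + 1)))
    {U : Set (E (m + 1))} (hU : IsOpen U) (hbU : b (Fin.last m) ∈ U) :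
    ∃ r > 0, ∀ φ : E m → ℝ, tsupport φ ⊆ Metric.ball 0 r →
      ∀ v : E (m + 1), ‖v‖ = 1 → v ∉ U → lift b φ v = 0 := by
  have hcont : ContinuousAt (fun y => ‖emb b y‖⁻¹ • emb b y) 0 := by
    change ContinuousAt ((fun y => ‖emb b y‖⁻¹) • (fun y => emb b y)) 0
    apply ContinuousAt.smul
    · apply ContinuousAt.inv₀
      · exact (UP_emb_cont b).norm.continuousAt
      · exact (norm_pos_iff.2 (UP_emb_ne b 0)).ne'
    · exact (UP_emb_cont b).continuousAt
  have hmem : (fun y => ‖emb b y‖⁻¹ • emb b y) ⁻¹' U ∈ 𝓝 (0 : E m) := by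
    apply hcont
    apply hU.mem_nhds
    simp only
    rw [UP_emb_zero, b.norm_eq_one, inv_one, one_smul]
    exact hbU
  obtain ⟨r, hr, hball⟩ := Metric.mem_nhds_iff.1 hmem
  refine ⟨r, hr, fun φ hφ v hv hvU => ?_⟩
  unfold lift tilde
  split_ifs with hs
  · have hphi : φ ((coord b v).2⁻¹ • (coord b v).1) = 0 := by
      by_contra hne
      have hz := hφ (subset_tsupport φ (Function.mem_support.2 hne))
      have hzU := hball hz
      apply hvU
      have hrep := LO_rep b hs.ne'
      set w : E (m + 1) := emb b ((coord b v).2⁻¹ • (coord b v).1) with hw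
      have hn : ‖w‖ = (coord b v).2⁻¹ := by
        have h4 : ‖v‖ = (coord b v).2 * ‖w‖ := by
          conv_lhs => rw [hrep]
          rw [norm_smul, Real.norm_eq_abs, abs_of_pos hs]
        rw [hv] at h4
        field_simp
        linarith
      have h5 : v = ‖w‖⁻¹ • w := by
        rw [hn, inv_inv]; exact hrep
      have h6 : ‖w‖⁻¹ • w ∈ U := hzU
      rw [h5]
      exact h6
    rw [hphi, mul_zero]
  · rfl

theorem LO_scale {m : ℕ} {f : E m → ℝ} {c : ℝ} (hc : 0 < c) {v : E m}
    (h : FlatAt (fun x => c * f x) 0 v) : FlatAt f 0 v := by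
  obtain ⟨ε, hε, he⟩ := h
  refine ⟨ε, hε, ?_⟩
  have : c * (f (0 + ε • v) + f (0 - ε • v)) = c * (2 * f 0) := by
    simp only at he
    linarith
  exact mul_left_cancel₀ hc.ne' this

/-- The support function of `c • K + D` in a chart. -/
theorem LO_chart {m : ℕ} (hHE : hE_facts_stmt) (b : OrthonormalBasis (Fin (m + 1)) ℝ (E (m + 1)))
    {K D : Set (E (m + 1))} (hK : IsBody K) (hD : IsBody D) {c : ℝ} (hc : 0 < c) :
    chart b (c • K + D) = fun x => c * chart b K x + chart b D x := by
  have hcK : IsBody (c • K) := ⟨hK.1.smul c, hK.2.1.smul c, hK.2.2.smul_set⟩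
  funext x
  unfold chart
  rw [(hHE hcK hD).2.2.2.1]
  congr 1
  -- homogeneity in the body
  unfold hE
  have e1 : (fun y : E (m + 1) => inner ℝ y (emb b x)) '' (c • K)
      = c • ((fun y : E (m + 1) => inner ℝ y (emb b x)) '' K) := by
    ext t
    constructor
    · rintro ⟨y, ⟨z, hz, rfl⟩, rfl⟩
      refine ⟨inner ℝ z (emb b x), ⟨z, hz, rfl⟩, ?_⟩
      simp only [smul_eq_mul]
      rw [real_inner_smul_left]
    · rintro ⟨s, ⟨z, hz, rfl⟩, rfl⟩
      refine ⟨c • z, ⟨z, hz, rfl⟩, ?_⟩
      simp only [smul_eq_mul]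
      rw [real_inner_smul_left]
  rw [e1, Real.sSup_smul_of_nonneg hc.le, smul_eq_mul]

theorem lower_of (hME : mem_extreme_chart_stmt) (hCL : core_lower_stmt)
    (hLI : local_identity_stmt) (hCV : chart_CV_stmt) (hEB : exists_basis_stmt)
    (hHE : hE_facts_stmt) (hFS : flat_submodule_stmt) (hFA : flat_add_stmt)
    (hMo : B_mono_stmt) (hMul : B_mul_stmt) (hNN : B_nonneg_stmt) : lower_stmt := by
  intro m hm C hC i₀ hp S hS u hu U hU huU hSU
  have hu1 : ‖u‖ = 1 := mem_sphere_zero_iff_norm.1 hu.1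
  obtain ⟨b, hb⟩ := hEB hu.1
  have hCb : ∀ j, CV (chart b (C j)) := fun j => hCV b (hC j)
  -- the local identity
  obtain ⟨r, hr, hnear⟩ := LO_near b hU (by rw [hb]; exact huU)
  have hB : ∀ φ, Test φ → tsupport φ ⊆ Metric.ball 0 r → B φ (fun j => chart b (C j)) = 0 := by
    intro φ hφ hφr
    rw [← hLI hm b hC hS hφ]
    apply integral_eq_zero_of_ae
    have h1 : ∀ᵐ v ∂S, v ∉ U := by
      rw [ae_iff]; simpa using hSU
    have h2 : ∀ᵐ v ∂S, v ∈ Metric.sphere (0 : E (m + 1)) 1 := by
      rw [ae_iff]; exact hS.2.1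
    filter_upwards [h1, h2] with v hv1 hv2
    exact hnear φ hφr v (by simpa using hv2) hv1
  -- the dimension conditions
  have hdim : ∀ (I : Finset (Fin m)) (W : Submodule ℝ (E m)),
      (∀ v ∈ W, ∀ i ∈ I, FlatAt (chart b (C i)) 0 v) → I.card + Module.finrank ℝ W ≤ m := by
    have h := (hME b hC (0 : E m)).1
    rw [UP_emb_zero, b.norm_eq_one, inv_one, one_smul, hb] at h
    exact h hu
  have h1 : ∃ v, ¬ FlatAt (chart b (C i₀)) 0 v := by
    by_contra hcon
    push Not at hcon
    have h := hdim {i₀} ⊤ (fun v _ i hi => by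
      rw [Finset.mem_singleton.1 hi]; exact hcon v)
    rw [Finset.card_singleton, finrank_top, finrank_euclideanSpace_fin] at h
    omega
  by_cases hex : ∃ j, j ≠ i₀
  · obtain ⟨j₀, hj₀⟩ := hex
    set f := chart b (C i₀) with hf
    set g := chart b (C j₀) with hg
    -- comparison of the other bodies with `C j₀`
    have hcmp : ∀ j, j ≠ i₀ → ∃ c : ℝ, 0 < c ∧ CV (fun x => chart b (C j) x - c * g x) := by
      intro j hj
      obtain ⟨c, hc, D, hD, he⟩ := hp j j₀ hj hj₀
      refine ⟨c, hc, ?_⟩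
      have e1 : (fun x => chart b (C j) x - c * g x) = chart b D := by
        funext x
        rw [he, LO_chart hHE b (hC j₀) hD hc]
        ring
      rw [e1]
      exact hCV b hD
    have hcmp' : ∀ j, j ≠ i₀ → ∀ v, FlatAt g 0 v → FlatAt (chart b (C j)) 0 v := by
      intro j hj v hv
      obtain ⟨c, hc, D, hD, he⟩ := hp j₀ j hj₀ hj
      rw [hg, he, LO_chart hHE b (hC j) hD hc] at hv
      have hcC : CV (fun x => c * chart b (C j) x) := C2_CV_smul (hCb j) hc.le
      exact LO_scale hc ((hFA hcC (hCV b hD) 0 v).1 hv).1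
    choose! c hc0 hcD using hcmp
    have hpairB : ∀ φ, Test φ → tsupport φ ⊆ Metric.ball 0 r → B φ (pair i₀ f g) = 0 := by
      intro φ hφ hφr
      have hc' : ∀ j, 0 < (if j = i₀ then (1 : ℝ) else c j) := by
        intro j
        split_ifs with h
        · exact one_pos
        · exact hc0 j h
      have hle : B φ (fun j x => (if j = i₀ then (1 : ℝ) else c j) * pair i₀ f g j x) ≤ 0 := by
        rw [← hB φ hφ hφr]
        refine hMo hφ (fun j => C2_CV_smul (C1_pair_CV i₀ (hCb i₀) (hCb j₀) j) (hc' j).le) ?_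
        intro j
        unfold pair
        by_cases hj : j = i₀
        · simp only [hj, if_true, one_mul]
          have : (fun x : E m => chart b (C i₀) x - f x) = fun _ => (0 : ℝ) := by
            funext x; rw [hf]; ring
          rw [this]
          exact C1_CV_const 0
        · simp only [hj, if_false]
          exact hcD j hj
      rw [hMul hφ (C1_pair_CV i₀ (hCb i₀) (hCb j₀)) (fun j => (hc' j).le)] at hle
      have hprod : 0 < ∏ j, (if j = i₀ then (1 : ℝ) else c j) :=
        Finset.prod_pos fun j _ => hc' j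
      have hnn := hNN hφ (C1_pair_CV i₀ (hCb i₀) (hCb j₀))
      have hle' : B φ (pair i₀ f g) ≤ 0 := by
        by_contra hcon
        push Not at hcon
        have := mul_pos hprod hcon
        linarith
      exact le_antisymm hle' hnn
    obtain ⟨Wg, hWg⟩ := hFS (hCb j₀) (0 : E m)
    obtain ⟨Wf, hWf⟩ := hFS (hCb i₀) (0 : E m)
    have hWg1 : Module.finrank ℝ Wg ≤ 1 := by
      have h := hdim (Finset.univ.erase i₀) Wg (fun v hv i hi =>
        hcmp' i (Finset.ne_of_mem_erase hi) v ((hWg v).1 hv))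
      rw [Finset.card_erase_of_mem (Finset.mem_univ _), Finset.card_univ, Fintype.card_fin] at h
      omega
    obtain ⟨l, hl⟩ := finrank_le_one_iff.1 hWg1
    refine hCL i₀ (hCb i₀) (hCb j₀) hr (l : E m) hpairB h1 ?_ ?_
    · intro v hv
      obtain ⟨t, ht⟩ := hl ⟨v, (hWg v).2 hv⟩
      refine ⟨t, ?_⟩
      have := congrArg Subtype.val ht
      simpa using this.symm
    · intro v hvf hvg
      have h := hdim Finset.univ (Wf ⊓ Wg) (fun w hw i _ => by
        by_cases hi : i = i₀
        · rw [hi]; exact (hWf w).1 hw.1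
        · exact hcmp' i hi w ((hWg w).1 hw.2))
      rw [Finset.card_univ, Fintype.card_fin] at h
      have h0 : Module.finrank ℝ ↥(Wf ⊓ Wg) = 0 := by omega
      rw [Submodule.finrank_eq_zero] at h0
      have hv : v ∈ Wf ⊓ Wg := ⟨(hWf v).2 hvf, (hWg v).2 hvg⟩
      rw [h0] at hv
      simpa using hv
  · push Not at hex
    have hpair : (fun j => chart b (C j)) = pair i₀ (chart b (C i₀)) (chart b (C i₀)) := by
      funext j
      unfold pair
      rw [hex j]
      simp
    obtain ⟨Wf, hWf⟩ := hFS (hCb i₀) (0 : E m)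
    have hm1 : m = 1 := by
      have : Subsingleton (Fin m) := ⟨fun i j => by rw [hex i, hex j]⟩
      have := Fintype.card_le_one_iff_subsingleton.2 this
      rw [Fintype.card_fin] at this
      omega
    have h0 : Wf = ⊥ := by
      have h := hdim {i₀} Wf (fun v hv i hi => by
        rw [Finset.mem_singleton.1 hi]; exact (hWf v).1 hv)
      rw [Finset.card_singleton] at h
      have h0 : Module.finrank ℝ Wf = 0 := by omega
      exact Submodule.finrank_eq_zero.1 h0
    have hz : ∀ v, FlatAt (chart b (C i₀)) 0 v → v = 0 := by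
      intro v hv
      have : v ∈ Wf := (hWf v).2 hv
      rw [h0] at this
      simpa using this
    refine hCL i₀ (hCb i₀) (hCb i₀) hr (0 : E m) ?_ h1 ?_ ?_
    · intro φ hφ hφr
      rw [← hpair]
      exact hB φ hφ hφr
    · intro v hv
      exact ⟨0, by rw [hz v hv]; simp⟩
    · intro v hv _
      exact hz v hv

end Pool.Agent.helper83.SC
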