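import Pool.Agent.helper83.SC.Defs

open scoped Pointwise ContDiff
open MeasureTheory Set Filter Topology

set_option linter.unusedVariables false

namespace Pool.Agent.helper83.SC

/-! # PART 1: linear algebra -/

/-! ## module LA1: polarization of the determinant -/

def mD_update_add_stmt : Prop := ∀ {m : ℕ} (M : Fin m → Matrix (Fin m) (Fin m) ℝ) (i : Fin m)
    (X Y : Matrix (Fin m) (Fin m) ℝ),
    mD (Function.update M i (X + Y)) = mD (Function.update M i X) + mD (Function.update M i Y)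

def mD_update_smul_stmt : Prop := ∀ {m : ℕ} (M : Fin m → Matrix (Fin m) (Fin m) ℝ) (i : Fin m) (c : ℝ)
    (X : Matrix (Fin m) (Fin m) ℝ),
    mD (Function.update M i (c • X)) = c * mD (Function.update M i X)

def mD_perm_stmt : Prop := ∀ {m : ℕ} (M : Fin m → Matrix (Fin m) (Fin m) ℝ) (σ : Equiv.Perm (Fin m)),
    mD (fun j => M (σ j)) = mD M

def mD_diag_stmt : Prop := ∀ {m : ℕ} (G : Matrix (Fin m) (Fin m) ℝ),
    mD (fun _ => G) = G.det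

def mD_polar_stmt : Prop := ∀ {m : ℕ} (G : Matrix (Fin m) (Fin m) ℝ) (M : Fin m → Matrix (Fin m) (Fin m) ℝ),
    ∑ J : Finset (Fin m), (-1 : ℝ) ^ (m - J.card) * (G + ∑ j ∈ J, M j).det
      = (m.factorial : ℝ) * mD M

/-! ## module LA2: positivity of mixed discriminants -/

def mD_nonneg_stmt : Prop := ∀ {m : ℕ} {M : Fin m → Matrix (Fin m) (Fin m) ℝ}
    (hM : ∀ j, (M j).PosSemidef),
    0 ≤ mD M

def mD_mono_stmt : Prop := ∀ {m : ℕ} {M N : Fin m → Matrix (Fin m) (Fin m) ℝ}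
    (hM : ∀ j, (M j).PosSemidef) (hN : ∀ j, (N j - M j).PosSemidef),
    mD M ≤ mD N

def mD_le_det_stmt : Prop := ∀ {m : ℕ} {M : Fin m → Matrix (Fin m) (Fin m) ℝ}
    (hM : ∀ j, (M j).PosSemidef),
    (m.factorial : ℝ) * mD M ≤ (∑ j, M j).det

/-! ## module LA3: special mixed discriminants -/

def mD_trace_stmt : Prop := ∀ {m : ℕ} (i₀ : Fin m) (X : Matrix (Fin m) (Fin m) ℝ) (c : ℝ),
    mD (fun j => if j = i₀ then X else c • (1 : Matrix (Fin m) (Fin m) ℝ))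
      = c ^ (m - 1) / m * X.trace

def mD_rank_one_stmt : Prop := ∀ {m : ℕ} (i₀ : Fin m) (G : Matrix (Fin m) (Fin m) ℝ) (l : Fin m → ℝ),
    (G + Matrix.vecMulVec l l).det
      = G.det + m * mD (fun j => if j = i₀ then Matrix.vecMulVec l l else G)

/-! # PART 2: convex functions -/

/-! ## module HS: Hessians -/

def hess_psd_stmt : Prop := ∀ {m : ℕ} {f : E m → ℝ} (hf : ContDiff ℝ ∞ f) (hc : CV f) (x : E m),
    (hess f x).PosSemidef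

def hess_add_stmt : Prop := ∀ {m : ℕ} {f g : E m → ℝ} (hf : ContDiff ℝ ∞ f) (hg : ContDiff ℝ ∞ g) (x : E m),
    hess (fun y => f y + g y) x = hess f x + hess g x

def hess_smul_stmt : Prop := ∀ {m : ℕ} {f : E m → ℝ} (hf : ContDiff ℝ ∞ f) (c : ℝ) (x : E m),
    hess (fun y => c * f y) x = c • hess f x

def hess_sum_stmt : Prop := ∀ {m : ℕ} {ι : Type} (s : Finset ι) {f : ι → E m → ℝ}
    (hf : ∀ i, ContDiff ℝ ∞ (f i)) (x : E m),
    hess (fun y => ∑ i ∈ s, f i y) x = ∑ i ∈ s, hess (f i) x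

def hess_normSq_stmt : Prop := ∀ {m : ℕ} (c : ℝ) (x : E m),
    hess (fun y : E m => c * ‖y‖ ^ 2 / 2) x = c • (1 : Matrix (Fin m) (Fin m) ℝ)

def hess_rank_one_stmt : Prop := ∀ {m : ℕ} (l : E m) (x : E m),
    hess (fun y : E m => (inner ℝ l y) ^ 2 / 2) x = Matrix.vecMulVec (fun i => l i) (fun i => l i)

def continuous_hess_stmt : Prop := ∀ {m : ℕ} {f : E m → ℝ} (hf : ContDiff ℝ ∞ f),
    Continuous (hess f)

def trace_hess_stmt : Prop := ∀ {m : ℕ} (f : E m → ℝ) (x : E m),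
    (hess f x).trace = lap f x

/-! ## module MO: smooth approximation -/

def exists_smooth_stmt : Prop := ∀ {m : ℕ} {f : E m → ℝ} (hf : CV f),
    ∃ g : ℕ → E m → ℝ, (∀ k, ContDiff ℝ ∞ (g k) ∧ CV (g k)) ∧
      ∀ x, Tendsto (fun k => g k x) atTop (𝓝 (f x))

/-! ## module FS: flat directions form a subspace -/

def flat_submodule_stmt : Prop := ∀ {m : ℕ} {f : E m → ℝ} (hf : CV f) (y : E m),
    ∃ W : Submodule ℝ (E m), ∀ v, v ∈ W ↔ FlatAt f y v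

def flat_add_stmt : Prop := ∀ {m : ℕ} {f g : E m → ℝ} (hf : CV f) (hg : CV g) (y v : E m),
    FlatAt (fun x => f x + g x) y v ↔ FlatAt f y v ∧ FlatAt g y v

def flat_sum_stmt : Prop := ∀ {m : ℕ} {ι : Type} (s : Finset ι) {F : ι → E m → ℝ} (hF : ∀ i, CV (F i))
    (y v : E m),
    FlatAt (fun x => ∑ i ∈ s, F i x) y v ↔ ∀ i ∈ s, FlatAt (F i) y v

/-! ## module LU: pointwise convergence of convex functions is locally uniform -/

def loc_bdd_stmt : Prop := ∀ {m : ℕ} {g : ℕ → E m → ℝ} {f : E m → ℝ} (hg : ∀ k, CV (g k))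
    (h : ∀ x, Tendsto (fun k => g k x) atTop (𝓝 (f x))) (R : ℝ),
    ∃ C, ∀ k x, ‖x‖ ≤ R → |g k x| ≤ C

def loc_lip_stmt : Prop := ∀ {m : ℕ} {g : ℕ → E m → ℝ} {f : E m → ℝ} (hg : ∀ k, CV (g k))
    (h : ∀ x, Tendsto (fun k => g k x) atTop (𝓝 (f x))) (R : ℝ),
    ∃ L, ∀ k x y, ‖x‖ ≤ R → ‖y‖ ≤ R → |g k x - g k y| ≤ L * ‖x - y‖

def tendsto_diag_stmt : Prop := ∀ {m : ℕ} {g : ℕ → E m → ℝ} {f : E m → ℝ} (hg : ∀ k, CV (g k))
    (h : ∀ x, Tendsto (fun k => g k x) atTop (𝓝 (f x))) {x : E m} {y : ℕ → E m}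
    (hy : Tendsto y atTop (𝓝 x)),
    Tendsto (fun k => g k (y k)) atTop (𝓝 (f x))

/-! ## module AL1, AL2, AL3, AL4: Alexandrov's measure -/

def ae_argmin_unique_stmt : Prop := ∀ {m : ℕ} {h : E m → ℝ} (hh : CV h),
    ∀ᵐ p : E m, ∀ y y', IsArgmin h p y → IsArgmin h p y' → y = y'

def alexandrov_smooth_stmt : Prop := ∀ {m : ℕ} {φ h : E m → ℝ} (hφ : Test φ) (hh : ContDiff ℝ ∞ h) {c : ℝ}
    (hc : 0 < c) (hcv : CV (fun y => h y - c * ‖y‖ ^ 2)),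
    (∀ p, ∃ y, IsArgmin h p y ∧ ∀ y', IsArgmin h p y' → y' = y) ∧ Continuous (sel φ h) ∧
      A φ h = ∫ x, φ x * (hess h x).det

def sel_integrable_stmt : Prop := ∀ {m : ℕ} {φ h : E m → ℝ} (hφ : Test φ) (hh : CV h),
    Integrable (sel φ h)

def tendsto_A_stmt : Prop := ∀ {m : ℕ} {φ f : E m → ℝ} {g : ℕ → E m → ℝ} (hφ : Test φ) (hf : CV f)
    (hg : ∀ k, CV (g k)) (h : ∀ x, Tendsto (fun k => g k x) atTop (𝓝 (f x))),
    Tendsto (fun k => A φ (g k)) atTop (𝓝 (A φ f))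

def A_smooth_stmt : Prop := ∀ {m : ℕ} {φ h : E m → ℝ} (hφ : Test φ) (hh : ContDiff ℝ ∞ h) (hc : CV h),
    A φ h = ∫ x, φ x * (hess h x).det

/-! ## module AP: elementary properties of `A` -/

def A_nonneg_stmt : Prop := ∀ {m : ℕ} {φ : E m → ℝ} (hφ : Test φ) (h : E m → ℝ),
    0 ≤ A φ h

def A_add_test_stmt : Prop := ∀ {m : ℕ} {φ ψ h : E m → ℝ} (hφ : Test φ) (hψ : Test ψ) (hh : CV h),
    A (fun x => φ x + ψ x) h = A φ h + A ψ h

def A_smul_test_stmt : Prop := ∀ {m : ℕ} {φ h : E m → ℝ} (hφ : Test φ) {c : ℝ} (hc : 0 ≤ c),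
    A (fun x => c * φ x) h = c * A φ h

def A_affine_stmt : Prop := ∀ {m : ℕ} (φ h : E m → ℝ) (a : E m) (c : ℝ),
    A φ (fun x => h x + (inner ℝ a x + c)) = A φ h

def A_congr_stmt : Prop := ∀ {m : ℕ} {φ h h' : E m → ℝ} (hφ : Test φ) (hh : CV h) (hh' : CV h') {U : Set (E m)}
    (hU : IsOpen U) (hφU : tsupport φ ⊆ U) (he : ∀ x ∈ U, h x = h' x),
    A φ h = A φ h'

def A_plateau_stmt : Prop := ∀ {m : ℕ} {φ h h' : E m → ℝ} (hφ : Test φ) (hh : CV h) (hh' : CV h') {r₁ r : ℝ}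
    (hr : r₁ < r) (he : ∀ x, r₁ ≤ ‖x‖ → h x = h' x) (h1 : ∀ x, ‖x‖ < r → φ x = 1),
    A φ h = A φ h'

/-! ## module BS: the functional `B` -/

def B_smooth_stmt : Prop := ∀ {m : ℕ} {φ : E m → ℝ} {F : Fin m → E m → ℝ} (hφ : Test φ)
    (hF : ∀ j, ContDiff ℝ ∞ (F j)) (hc : ∀ j, CV (F j)),
    B φ F = ∫ x, φ x * mD (fun j => hess (F j) x)

def tendsto_B_stmt : Prop := ∀ {m : ℕ} {φ : E m → ℝ} {F : Fin m → E m → ℝ} {G : ℕ → Fin m → E m → ℝ}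
    (hφ : Test φ) (hF : ∀ j, CV (F j)) (hG : ∀ k j, CV (G k j))
    (h : ∀ j x, Tendsto (fun k => G k j x) atTop (𝓝 (F j x))),
    Tendsto (fun k => B φ (G k)) atTop (𝓝 (B φ F))

def B_shift_stmt : Prop := ∀ {m : ℕ} {φ : E m → ℝ} {F : Fin m → E m → ℝ} {G : E m → ℝ} (hφ : Test φ)
    (hF : ∀ j, CV (F j)) (hG : CV G),
    ∑ J : Finset (Fin m), (-1 : ℝ) ^ (m - J.card) * A φ (fun x => G x + ∑ j ∈ J, F j x)
      = (m.factorial : ℝ) * B φ F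

/-! ## module BP1: positivity and comparison -/

def B_nonneg_stmt : Prop := ∀ {m : ℕ} {φ : E m → ℝ} {F : Fin m → E m → ℝ} (hφ : Test φ)
    (hF : ∀ j, CV (F j)),
    0 ≤ B φ F

def B_diag_stmt : Prop := ∀ {m : ℕ} {φ g : E m → ℝ} (hφ : Test φ) (hg : CV g),
    B φ (fun _ => g) = A φ g

def B_le_A_stmt : Prop := ∀ {m : ℕ} {φ : E m → ℝ} {F : Fin m → E m → ℝ} (hφ : Test φ)
    (hF : ∀ j, CV (F j)),
    (m.factorial : ℝ) * B φ F ≤ A φ (fun x => ∑ j, F j x)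

def B_mono_stmt : Prop := ∀ {m : ℕ} {φ : E m → ℝ} {F G : Fin m → E m → ℝ} (hφ : Test φ)
    (hF : ∀ j, CV (F j)) (hG : ∀ j, CV (fun x => G j x - F j x)),
    B φ F ≤ B φ G

/-! ## module BP2: multilinearity -/

def B_update_add_stmt : Prop := ∀ {m : ℕ} {φ : E m → ℝ} {F : Fin m → E m → ℝ} {i : Fin m} {f f' : E m → ℝ}
    (hφ : Test φ) (hF : ∀ j, CV (F j)) (hf : CV f) (hf' : CV f'),
    B φ (Function.update F i (fun x => f x + f' x))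
      = B φ (Function.update F i f) + B φ (Function.update F i f')

def B_update_smul_stmt : Prop := ∀ {m : ℕ} {φ : E m → ℝ} {F : Fin m → E m → ℝ} {i : Fin m} {f : E m → ℝ}
    (hφ : Test φ) (hF : ∀ j, CV (F j)) (hf : CV f) {c : ℝ} (hc : 0 ≤ c),
    B φ (Function.update F i (fun x => c * f x)) = c * B φ (Function.update F i f)

def B_mul_stmt : Prop := ∀ {m : ℕ} {φ : E m → ℝ} {F : Fin m → E m → ℝ} (hφ : Test φ)
    (hF : ∀ j, CV (F j)) {c : Fin m → ℝ} (hc : ∀ j, 0 ≤ c j),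
    B φ (fun j x => c j * F j x) = (∏ j, c j) * B φ F

def B_affine_stmt : Prop := ∀ {m : ℕ} (φ : E m → ℝ) (F : Fin m → E m → ℝ) (a : Fin m → E m) (c : Fin m → ℝ),
    B φ (fun j x => F j x + (inner ℝ (a j) x + c j)) = B φ F

/-! ## module BP3: test functions, locality, plateau -/

def B_add_test_stmt : Prop := ∀ {m : ℕ} {φ ψ : E m → ℝ} {F : Fin m → E m → ℝ} (hφ : Test φ) (hψ : Test ψ)
    (hF : ∀ j, CV (F j)),
    B (fun x => φ x + ψ x) F = B φ F + B ψ F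

def B_smul_test_stmt : Prop := ∀ {m : ℕ} {φ : E m → ℝ} {F : Fin m → E m → ℝ} (hφ : Test φ) {c : ℝ}
    (hc : 0 ≤ c),
    B (fun x => c * φ x) F = c * B φ F

def B_test_mono_stmt : Prop := ∀ {m : ℕ} {φ ψ : E m → ℝ} {F : Fin m → E m → ℝ} (hφ : Test φ) (hψ : Test ψ)
    (hF : ∀ j, CV (F j)) (h : ∀ x, φ x ≤ ψ x),
    B φ F ≤ B ψ F

def B_congr_stmt : Prop := ∀ {m : ℕ} {φ : E m → ℝ} {F G : Fin m → E m → ℝ} (hφ : Test φ)
    (hF : ∀ j, CV (F j)) (hG : ∀ j, CV (G j)) {U : Set (E m)}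
    (hU : IsOpen U) (hφU : tsupport φ ⊆ U) (he : ∀ j, ∀ x ∈ U, F j x = G j x),
    B φ F = B φ G

def B_plateau_stmt : Prop := ∀ {m : ℕ} {φ : E m → ℝ} {F G : Fin m → E m → ℝ} (hφ : Test φ)
    (hF : ∀ j, CV (F j)) (hG : ∀ j, CV (G j)) {r₁ r : ℝ} (hr : r₁ < r)
    (he : ∀ j x, r₁ ≤ ‖x‖ → F j x = G j x) (h1 : ∀ x, ‖x‖ < r → φ x = 1),
    B φ F = B φ G

/-! ## module BP4: two special formulas -/

def B_lap_stmt : Prop := ∀ {m : ℕ} {φ f : E m → ℝ} (hφ : Test φ) (hf : CV f) (i₀ : Fin m) {c : ℝ}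
    (hc : 0 ≤ c),
    B φ (pair i₀ f (fun x => c * ‖x‖ ^ 2 / 2)) = c ^ (m - 1) / m * ∫ x, f x * lap φ x

def B_rank_one_stmt : Prop := ∀ {m : ℕ} {φ g : E m → ℝ} (hφ : Test φ) (hg : CV g) (i₀ : Fin m) (l : E m),
    A φ (fun x => g x + (inner ℝ l x) ^ 2 / 2)
      = A φ g + m * B φ (pair i₀ (fun x => (inner ℝ l x) ^ 2 / 2) g)

/-! # PART 3: the lower bound -/

/-! ## module WA: weakly harmonic convex functions are flat -/

def flat_of_harmonic_stmt : Prop := ∀ {m : ℕ} {f : E m → ℝ} (hf : CV f) {r : ℝ} (hr : 0 < r)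
    (h : ∀ φ, Test φ → tsupport φ ⊆ Metric.ball 0 r → ∫ x, f x * lap φ x = 0) (v : E m),
    FlatAt f 0 v

/-! ## module GA: cutting off an extreme point -/

def exists_cut_stmt : Prop := ∀ {m : ℕ} {f : E m → ℝ} (hf : CV f) (h0 : ∀ v, v ≠ 0 → ¬ FlatAt f 0 v) {r : ℝ}
    (hr : 0 < r),
    ∃ (a : E m) (c μ : ℝ), 0 < μ ∧ f 0 < c ∧
      ∀ y : E m, r ≤ ‖y‖ → inner ℝ a y + c + μ * ‖y‖ ≤ f y

/-! ## module CP: the Alexandrov measure charges neighbourhoods of extreme points -/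

def A_pos_stmt : Prop := ∀ {m : ℕ} {φ h : E m → ℝ} (hφ : Test φ) (hh : CV h)
    (h0 : ∀ v, v ≠ 0 → ¬ FlatAt h 0 v) {r : ℝ} (hr : 0 < r) (h1 : ∀ x, ‖x‖ < r → φ x = 1),
    0 < A φ h

/-! ## module EN: the envelope -/

def exists_envelope_stmt : Prop := ∀ {m : ℕ} (hm : 1 ≤ m) {g : E m → ℝ} (hg : CV g) {r : ℝ} (hr : 0 < r),
    ∃ G : E m → ℝ, CV G ∧ (∀ x, g x ≤ G x) ∧ (∀ x, r ≤ ‖x‖ → G x = g x) ∧
      ∀ k : E m → ℝ, CV k → (∀ x, r ≤ ‖x‖ → k x = g x) → ∀ x, k x ≤ G x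

def A_envelope_stmt : Prop := ∀ {m : ℕ} {φ g G : E m → ℝ} {r : ℝ} (hr : 0 < r) (hG : CV G)
    (h1 : ∀ x, r ≤ ‖x‖ → G x = g x)
    (h2 : ∀ k : E m → ℝ, CV k → (∀ x, r ≤ ‖x‖ → k x = g x) → ∀ x, k x ≤ G x)
    (hφ : Test φ) (hφr : tsupport φ ⊆ Metric.ball 0 r),
    A φ G = 0

/-! ## module GL: gluing -/

def glue_stmt : Prop := ∀ {m : ℕ} {g k : E m → ℝ} {r₁ r : ℝ} (hr : r₁ < r) (hg : CV g)
    (hk : ConvexOn ℝ (Metric.ball 0 r) k) (h1 : ∀ x, g x ≤ k x)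
    (h2 : ∀ x, r₁ ≤ ‖x‖ → k x = g x),
    CV k

def exists_strong_stmt : Prop := ∀ {m : ℕ} {g G : E m → ℝ} {r : ℝ} (hr : 0 < r) (hg : CV g) (hG : CV G)
    (h1 : ∀ x, g x ≤ G x) (h2 : ∀ x, r ≤ ‖x‖ → G x = g x) (h0 : g 0 < G 0),
    ∃ (k : E m → ℝ) (ε δ ρ : ℝ), 0 < ε ∧ 0 < ρ ∧ CV k ∧ (∀ x, r ≤ ‖x‖ → k x = g x) ∧
      ∀ x, ‖x‖ < ρ → k x = G x + ε * ‖x‖ ^ 2 / 2 - δ

/-! ## module TF: test functions -/

def exists_test_stmt : Prop := ∀ {m : ℕ} {r₁ r₂ : ℝ} (h1 : 0 < r₁) (h2 : r₁ < r₂),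
    ∃ φ : E m → ℝ, Test φ ∧ (∀ x, φ x ≤ 1) ∧ (∀ x, ‖x‖ < r₁ → φ x = 1) ∧
      tsupport φ ⊆ Metric.ball 0 r₂

/-! ## module C1: the case where the envelope is above the function -/

def core_above_stmt : Prop := ∀ {m : ℕ} {f g G : E m → ℝ} (i₀ : Fin m) (hf : CV f) (hg : CV g) (hG : CV G)
    {r' r : ℝ} (hr' : 0 < r') (hr : r' < r)
    (hB : ∀ φ, Test φ → tsupport φ ⊆ Metric.ball 0 r → B φ (pair i₀ f g) = 0)
    (h1 : ∀ x, g x ≤ G x) (h2 : ∀ x, r' ≤ ‖x‖ → G x = g x) (h0 : g 0 < G 0) (v : E m),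
    FlatAt f 0 v

/-! ## module C2: the case where the envelope touches the function -/

def core_touch_stmt : Prop := ∀ {m : ℕ} {f G : E m → ℝ} (i₀ : Fin m) (hf : CV f) (hG : CV G)
    {r : ℝ} (hr : 0 < r) (l : E m)
    (hB : ∀ φ, Test φ → tsupport φ ⊆ Metric.ball 0 r → B φ (pair i₀ f G) = 0)
    (hA : ∀ φ, Test φ → tsupport φ ⊆ Metric.ball 0 r → A φ G = 0)
    (h2 : ∀ v, FlatAt G 0 v → ∃ t : ℝ, v = t • l)
    (h3 : ∀ v, FlatAt f 0 v → FlatAt G 0 v → v = 0),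
    False

/-! ## module CL: the local lower bound -/

def core_lower_stmt : Prop := ∀ {m : ℕ} {f g : E m → ℝ} (i₀ : Fin m) (hf : CV f) (hg : CV g) {r : ℝ}
    (hr : 0 < r) (l : E m)
    (hB : ∀ φ, Test φ → tsupport φ ⊆ Metric.ball 0 r → B φ (pair i₀ f g) = 0)
    (h1 : ∃ v, ¬ FlatAt f 0 v) (h2 : ∀ v, FlatAt g 0 v → ∃ t : ℝ, v = t • l)
    (h3 : ∀ v, FlatAt f 0 v → FlatAt g 0 v → v = 0),
    False

/-! # PART 4: the upper bound -/

/-- The closed pieces of the set where `f` is flat in at least `|T|` directions. -/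
def piece {m : ℕ} (f : E m → ℝ) (T : Finset (Fin m)) (N : ℕ) : Set (E m) :=
  {y | ∀ c : E m, ‖c‖ ≤ 1 / ((N : ℝ) + 1) → ∃ w : E m, (∀ i ∈ T, w i = c i) ∧
    ‖w‖ ≤ (N : ℝ) + 1 ∧ f (y + w) + f (y - w) = 2 * f y}

/-- The set of subgradients of `h` at the points of `Z`. -/
def subgr {m : ℕ} (h : E m → ℝ) (Z : Set (E m)) : Set (E m) := {p | ∃ y ∈ Z, IsArgmin h p y}

/-! ## module UA: pieces are closed and cover -/

def piece_closed_stmt : Prop := ∀ {m : ℕ} {f : E m → ℝ} (hf : CV f) (T : Finset (Fin m)) (N : ℕ),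
    IsClosed (piece f T N)

def mem_piece_stmt : Prop := ∀ {m : ℕ} {f : E m → ℝ} (hf : CV f) {y : E m} (W : Submodule ℝ (E m))
    (hW : ∀ v ∈ W, FlatAt f y v),
    ∃ (T : Finset (Fin m)) (N : ℕ), T.card = Module.finrank ℝ W ∧ y ∈ piece f T N

/-! ## module UB: the slices of the subgradient image are small -/

def slice_small_stmt : Prop := ∀ {m : ℕ} {f g : E m → ℝ} (hf : CV f) (hg : CV g) (T : Finset (Fin m)) (N : ℕ)
    (R : ℝ),
    ∃ C : ℝ, 0 < C ∧ ∀ t : ℝ, 0 < t → t ≤ 1 → ∀ y z p q : E m,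
      y ∈ piece f T N → z ∈ piece f T N → ‖y‖ ≤ R → ‖z‖ ≤ R → ‖y - z‖ ≤ 1 / ((N : ℝ) + 1) →
      IsArgmin (fun x => f x + t * g x) p y → IsArgmin (fun x => f x + t * g x) q z →
      (∀ i, i ∉ T → p i = q i) → ‖p - q‖ ≤ C * t

/-! ## module UC: Fubini -/

def volume_le_of_slices_stmt : Prop := ∀ {m : ℕ} {S : Set (E m)} (hS : IsCompact S) (T : Finset (Fin m))
    {R ρ : ℝ} (hR : 0 ≤ R) (hρ : 0 ≤ ρ) (h1 : ∀ p ∈ S, ‖p‖ ≤ R)
    (h2 : ∀ p ∈ S, ∀ q ∈ S, (∀ i, i ∉ T → p i = q i) → ‖p - q‖ ≤ ρ),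
    volume S ≤ ENNReal.ofReal ((2 * R) ^ (m - T.card) * (2 * ρ) ^ T.card)

/-! ## module UD: subgradient images of compact sets -/

def subgr_compact_stmt : Prop := ∀ {m : ℕ} {h : E m → ℝ} (hh : CV h) {Z : Set (E m)} (hZ : IsCompact Z),
    IsCompact (subgr h Z)

def subgr_bdd_stmt : Prop := ∀ {m : ℕ} {f g : E m → ℝ} (hf : CV f) (hg : CV g) (R : ℝ),
    ∃ C : ℝ, 0 ≤ C ∧ ∀ t : ℝ, 0 ≤ t → t ≤ 1 → ∀ p y, ‖y‖ ≤ R →
      IsArgmin (fun x => f x + t * g x) p y → ‖p‖ ≤ C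

/-! ## module UE: Alexandrov measures of compact sets -/

def exists_test_subgr_stmt : Prop := ∀ {m : ℕ} {h : E m → ℝ} (hh : CV h) {Z : Set (E m)} (hZ : IsCompact Z)
    {ε : ℝ} (hε : 0 < ε),
    ∃ φ, Test φ ∧ (∀ x ∈ Z, 1 ≤ φ x) ∧ A φ h ≤ (volume (subgr h Z)).toReal + ε

/-! ## module UF: one piece is a null set -/

def null_piece_stmt : Prop := ∀ {m : ℕ} {F : Fin m → E m → ℝ} (hF : ∀ j, CV (F j)) (ν : Measure (E m))
    [IsFiniteMeasure ν] (hν : ∀ φ, Test φ → ∫ x, φ x ∂ν = B φ F) (I T : Finset (Fin m)) (N : ℕ)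
    (hIT : m + 1 ≤ T.card + I.card),
    ν (piece (fun x => ∑ i ∈ I, F i x) T N) = 0

/-! ## module CU: the local upper bound -/

def core_upper_stmt : Prop := ∀ {m : ℕ} {F : Fin m → E m → ℝ} (hF : ∀ j, CV (F j)) (ν : Measure (E m))
    [IsFiniteMeasure ν] (hν : ∀ φ, Test φ → ∫ x, φ x ∂ν = B φ F) {U : Set (E m)}
    (h : ∀ y ∈ U, ∃ (I : Finset (Fin m)) (W : Submodule ℝ (E m)),
      (∀ v ∈ W, ∀ i ∈ I, FlatAt (F i) y v) ∧ m + 1 ≤ Module.finrank ℝ W + I.card),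
    ν U = 0

/-! # PART 5: bodies -/

/-! ## module JF: the volume functional -/

def integral_conj_sub_stmt : Prop := ∀ {m : ℕ} {φ f : E m → ℝ} (hφ : Test φ) (hf : CV f)
    (hf' : CV (fun x => f x + φ x)),
    ∫ p, (conj f p - conj (fun x => f x + φ x) p)
      = ∫ s in (0 : ℝ)..1, A φ (fun x => f x + s * φ x)

def A_interval_stmt : Prop := ∀ {m : ℕ} {φ f g : E m → ℝ} (hφ : Test φ) (hf : CV f)
    (hf' : CV (fun x => f x + φ x)) (hg : CV g),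
    IntervalIntegrable (fun s : ℝ => A φ (fun x => f x + s * φ x + g x)) volume 0 1

/-! ## modules VO1, VO2: bodies in `E m × ℝ` -/

def Body_add_stmt : Prop := ∀ {m : ℕ} {K K' : Set (E m × ℝ)} (hK : Body K) (hK' : Body K'),
    Body (K + K')

def H_add_stmt : Prop := ∀ {m : ℕ} {K K' : Set (E m × ℝ)} (hK : Body K) (hK' : Body K') (y : E m) (s : ℝ),
    H (K + K') y s = H K y s + H K' y s

def F_CV_stmt : Prop := ∀ {m : ℕ} {K : Set (E m × ℝ)} (hK : Body K),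
    CV (F K)

def volume_sub_stmt : Prop := ∀ {m : ℕ} {K K' : Set (E m × ℝ)} (hK : Body K) (hK' : Body K') {φ : E m → ℝ}
    (hφ : Test φ) (h : ∀ y s, H K' y s = H K y s + tilde φ y s),
    (volume K').toReal - (volume K).toReal = ∫ p, (conj (F K) p - conj (F K') p)

/-! ## module TB: test bodies -/

def exists_test_body_stmt : Prop := ∀ {m : ℕ} {φ : E m → ℝ} (hφ : Test φ),
    ∃ M M' : Set (E m × ℝ), Body M ∧ Body M' ∧ ∀ y s, H M' y s = H M y s + tilde φ y s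

/-! ## module CH: charts -/

def coord_facts_stmt : Prop := ∀ {m : ℕ} (b : OrthonormalBasis (Fin (m + 1)) ℝ (E (m + 1))),
    (∀ K : Set (E (m + 1)), IsBody K → Body (coord b '' K)) ∧
    (∀ K : Set (E m × ℝ), Body K → IsBody (coord b ⁻¹' K)) ∧
    (∀ K : Set (E m × ℝ), coord b '' (coord b ⁻¹' K) = K) ∧
    (∀ K L : Set (E (m + 1)), coord b '' (K + L) = coord b '' K + coord b '' L) ∧
    (∀ K : Set (E (m + 1)), IsBody K → vol K = (volume (coord b '' K)).toReal) ∧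
    (∀ K : Set (E (m + 1)), IsBody K → ∀ v, hE K v = H (coord b '' K) (coord b v).1 (coord b v).2) ∧
    (∀ K : Set (E (m + 1)), IsBody K → F (coord b '' K) = chart b K)

def hE_facts_stmt : Prop := ∀ {n : ℕ} {K L : Set (E n)} (hK : IsBody K) (hL : IsBody L),
    (∃ C, LipschitzWith C (hE K)) ∧ CV (hE K) ∧
    (∀ t : ℝ, 0 ≤ t → ∀ v, hE K (t • v) = t * hE K v) ∧
    (∀ v, hE (K + L) v = hE K v + hE L v) ∧ IsBody (K + L)

def isBody_sum_stmt : Prop := ∀ {n : ℕ} {ι : Type} (s : Finset ι) {C : ι → Set (E n)} (hC : ∀ i, IsBody (C i)),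
    IsBody (∑ i ∈ s, C i) ∧ ∀ v, hE (∑ i ∈ s, C i) v = ∑ i ∈ s, hE (C i) v

def chart_CV_stmt : Prop := ∀ {m : ℕ} (b : OrthonormalBasis (Fin (m + 1)) ℝ (E (m + 1)))
    {K : Set (E (m + 1))} (hK : IsBody K),
    CV (chart b K)

def exists_basis_stmt : Prop := ∀ {m : ℕ} {u : E (m + 1)} (hu : u ∈ Metric.sphere (0 : E (m + 1)) 1),
    ∃ b : OrthonormalBasis (Fin (m + 1)) ℝ (E (m + 1)), b (Fin.last m) = u

/-! ## module LI: the mixed area measure in a chart -/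

def local_identity_stmt : Prop := ∀ {m : ℕ} (hm : 1 ≤ m) (b : OrthonormalBasis (Fin (m + 1)) ℝ (E (m + 1)))
    {C : Fin m → Set (E (m + 1))} (hC : ∀ i, IsBody (C i)) {S : Measure (E (m + 1))}
    (hS : IsMixedArea C S) {φ : E m → ℝ} (hφ : Test φ),
    ∫ v, lift b φ v ∂S = B φ (fun j => chart b (C j))

/-! ## modules TC1, TC2, TC3: touching cones -/

def touching_span_stmt : Prop := ∀ {n : ℕ} {K : Set (E n)} (hK : IsBody K) {u : E n} (hu : u ≠ 0),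
    ∃ W : Submodule ℝ (E n), u ∈ W ∧ (∀ v, v ∈ W ↔ FlatAt (hE K) u v) ∧
      ∀ k, DimPerpGE K u k ↔ k + Module.finrank ℝ W ≤ n

def mem_extreme_iff_stmt : Prop := ∀ {m : ℕ} {C : Fin m → Set (E (m + 1))} (hC : ∀ i, IsBody (C i))
    {u : E (m + 1)} (hu : u ∈ Metric.sphere (0 : E (m + 1)) 1),
    u ∈ extremeDirections C ↔ ∀ (I : Finset (Fin m)) (W : Submodule ℝ (E (m + 1))),
      (∀ v ∈ W, ∀ i ∈ I, FlatAt (hE (C i)) u v) → I.card + Module.finrank ℝ W ≤ m + 1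

def mem_extreme_chart_stmt : Prop := ∀ {m : ℕ} (b : OrthonormalBasis (Fin (m + 1)) ℝ (E (m + 1)))
    {C : Fin m → Set (E (m + 1))} (hC : ∀ i, IsBody (C i)) (y : E m),
    ‖emb b y‖⁻¹ • emb b y ∈ extremeDirections C ↔
      ∀ (I : Finset (Fin m)) (W : Submodule ℝ (E m)),
        (∀ v ∈ W, ∀ i ∈ I, FlatAt (chart b (C i)) y v) → I.card + Module.finrank ℝ W ≤ m

/-! ## modules LO, UP: the two inclusions -/

def lower_stmt : Prop := ∀ {m : ℕ} (hm : 1 ≤ m) {C : Fin m → Set (E (m + 1))} (hC : ∀ i, IsBody (C i))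
    (i₀ : Fin m) (hp : ∀ i j, i ≠ i₀ → j ≠ i₀ →
      ∃ c : ℝ, 0 < c ∧ ∃ D : Set (E (m + 1)), IsBody D ∧ C i = c • C j + D)
    {S : Measure (E (m + 1))} (hS : IsMixedArea C S) {u : E (m + 1)} (hu : u ∈ extremeDirections C)
    {U : Set (E (m + 1))} (hU : IsOpen U) (huU : u ∈ U),
    S U ≠ 0

def upper_stmt : Prop := ∀ {m : ℕ} (hm : 1 ≤ m) {C : Fin m → Set (E (m + 1))} (hC : ∀ i, IsBody (C i))
    {S : Measure (E (m + 1))} (hS : IsMixedArea C S) {u : E (m + 1)}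
    (hu : u ∈ Metric.sphere (0 : E (m + 1)) 1) {U : Set (E (m + 1))}
    (hU : IsOpen U) (huU : u ∈ U) (hUE : ∀ v ∈ U, v ∉ extremeDirections C),
    ∃ U' : Set (E (m + 1)), IsOpen U' ∧ u ∈ U' ∧ S U' = 0

end Pool.Agent.helper83.SC
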