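import Pool.Agent.helper83.SC.Stmt

open scoped Pointwise ContDiff
open MeasureTheory Set Filter Topology

namespace Pool.Agent.helper83.SC

/-- If the mixed measure vanishes for a plateau function then it vanishes for all smaller test
functions. -/
theorem C1_zero (hSm : B_smul_test_stmt) (hTM : B_test_mono_stmt) (hNN : B_nonneg_stmt) {m : ℕ}
    {χ ψ : E m → ℝ} {F : Fin m → E m → ℝ} {s : ℝ} (hχ : Test χ) (h1 : ∀ x, ‖x‖ < s → χ x = 1)
    (hF : ∀ j, CV (F j)) (h0 : B χ F = 0) (hψ : Test ψ) (hψs : tsupport ψ ⊆ Metric.ball 0 s) :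
    B ψ F = 0 := by
  obtain ⟨C, hC⟩ : ∃ C, ∀ x, ‖ψ x‖ ≤ C := hψ.2.1.exists_bound_of_continuous hψ.1.continuous
  have hC0 : 0 ≤ C := (norm_nonneg _).trans (hC 0)
  have hCχ : Test (fun x => C * χ x) := by
    refine ⟨contDiff_const.mul hχ.1, ?_, fun x => mul_nonneg hC0 (hχ.2.2 x)⟩
    exact hχ.2.1.mul_left
  have hle : ∀ x, ψ x ≤ C * χ x := by
    intro x
    by_cases hx : x ∈ tsupport ψ
    · have hx' : ‖x‖ < s := by simpa using hψs hx
      rw [h1 x hx', mul_one]
      exact (le_abs_self _).trans (hC x)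
    · rw [image_eq_zero_of_notMem_tsupport hx]
      exact mul_nonneg hC0 (hχ.2.2 x)
  have h2 : B ψ F ≤ B (fun x => C * χ x) F := hTM hψ hCχ hF hle
  rw [hSm hχ hC0, h0, mul_zero] at h2
  exact le_antisymm h2 (hNN hψ hF)

theorem C1_pair_CV {m : ℕ} {f g : E m → ℝ} (i₀ : Fin m) (hf : CV f) (hg : CV g) (j : Fin m) :
    CV (pair i₀ f g j) := by
  unfold pair
  split_ifs
  · exact hf
  · exact hg

theorem C1_CV_const {m : ℕ} (c : ℝ) : CV (fun _ : E m => c) := convexOn_const c convex_univ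

theorem C1_CV_normSq {m : ℕ} {c : ℝ} (hc : 0 ≤ c) : CV (fun x : E m => c * ‖x‖ ^ 2 / 2) := by
  have h1 : ConvexOn ℝ univ (fun x : E m => ‖x‖ ^ 2) := by
    have := (convexOn_norm (E := E m) convex_univ).pow (fun x _ => norm_nonneg x) 2
    exact this
  have h2 := h1.smul (c := c / 2) (by positivity)
  have h3 : (fun x : E m => c * ‖x‖ ^ 2 / 2) = fun x => (c / 2) • ‖x‖ ^ 2 := by
    funext x
    simp only [smul_eq_mul]
    ring
  unfold CV
  rw [h3]
  exact h2

theorem core_above_of (hES : exists_strong_stmt) (hET : exists_test_stmt) (hPl : B_plateau_stmt)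
    (hSm : B_smul_test_stmt) (hTM : B_test_mono_stmt) (hNN : B_nonneg_stmt) (hCg : B_congr_stmt)
    (hMo : B_mono_stmt) (hLa : B_lap_stmt) (hFl : flat_of_harmonic_stmt) : core_above_stmt := by
  intro m f g G i₀ hf hg hG r' r hr' hr hB h1 h2 h0 v
  obtain ⟨k, ε, δ, ρ, hε, hρ, hk, hkg, hkG⟩ := hES hr' hg hG h1 h2 h0
  have hm : 0 < m := i₀.pos
  obtain ⟨χ, hχ, -, hχ1, hχs⟩ := hET (m := m) (r₁ := (r' + r) / 2) (r₂ := r) (by linarith)
    (by linarith)
  have hpk : B χ (pair i₀ f k) = 0 := by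
    rw [← hB χ hχ hχs]
    refine hPl hχ (C1_pair_CV i₀ hf hk) (C1_pair_CV i₀ hf hg) (r₁ := r') (r := (r' + r) / 2)
      (by linarith) ?_ hχ1
    intro j x hx
    unfold pair
    split_ifs
    · rfl
    · exact hkg x hx
  -- the radius near the origin
  have hρ' : 0 < min ρ r' := lt_min hρ hr'
  have hq : CV (fun x : E m => ε * ‖x‖ ^ 2 / 2) := C1_CV_normSq hε.le
  have hGq : CV (fun x : E m => G x + ε * ‖x‖ ^ 2 / 2 - δ) := by
    have := (hG.add hq).add (C1_CV_const (m := m) (-δ))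
    exact this
  refine hFl hf hρ' ?_ v
  intro ψ hψ hψs
  have hψs' : tsupport ψ ⊆ Metric.ball 0 ((r' + r) / 2) := by
    refine hψs.trans (Metric.ball_subset_ball ?_)
    have := min_le_right ρ r'
    linarith
  have e1 : B ψ (pair i₀ f k) = 0 :=
    C1_zero hSm hTM hNN hχ hχ1 (C1_pair_CV i₀ hf hk) hpk hψ hψs'
  have e2 : B ψ (pair i₀ f (fun x => G x + ε * ‖x‖ ^ 2 / 2 - δ)) = 0 := by
    rw [← e1]
    refine hCg hψ (C1_pair_CV i₀ hf hGq) (C1_pair_CV i₀ hf hk) Metric.isOpen_ball hψs ?_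
    intro j x hx
    have hx' : ‖x‖ < ρ := by
      have : ‖x‖ < min ρ r' := by simpa using hx
      exact this.trans_le (min_le_left _ _)
    unfold pair
    split_ifs
    · rfl
    · exact (hkG x hx').symm
  have e3 : B ψ (pair i₀ f (fun x => ε * ‖x‖ ^ 2 / 2)) = 0 := by
    refine le_antisymm ?_ (hNN hψ (C1_pair_CV i₀ hf hq))
    rw [← e2]
    refine hMo hψ (C1_pair_CV i₀ hf hq) ?_
    intro j
    unfold pair
    split_ifs
    · have : (fun x : E m => f x - f x) = fun _ => (0 : ℝ) := by funext x; ring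
      rw [this]
      exact C1_CV_const 0
    · have : (fun x : E m => G x + ε * ‖x‖ ^ 2 / 2 - δ - ε * ‖x‖ ^ 2 / 2) = fun x => G x + (-δ) := by
        funext x; ring
      rw [this]
      exact hG.add (C1_CV_const (m := m) (-δ))
  rw [hLa hψ hf i₀ hε.le] at e3
  rcases mul_eq_zero.1 e3 with h | h
  · exfalso
    have : (0 : ℝ) < ε ^ (m - 1) / m := by positivity
    linarith
  · exact h

end Pool.Agent.helper83.SC
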