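import Pool.Agent.helper83.SC.C1

open scoped Pointwise ContDiff
open MeasureTheory Set Filter Topology

namespace Pool.Agent.helper83.SC

/-- The Huber function. -/
noncomputable def C2_hu (s : ℝ) : ℝ := if |s| ≤ 1 then s ^ 2 / 2 else |s| - 1 / 2

theorem C2_hu_ge (s t : ℝ) (ht : |t| ≤ 1) : t * s - t ^ 2 / 2 ≤ C2_hu s := by
  unfold C2_hu
  split_ifs with h
  · nlinarith [sq_nonneg (s - t)]
  · push Not at h
    have h1 : t * s ≤ |t| * |s| := by
      rw [← abs_mul]; exact le_abs_self _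
    have h2 : t ^ 2 = |t| ^ 2 := (sq_abs t).symm
    rw [h2]
    nlinarith [abs_nonneg t, abs_nonneg s, sq_nonneg (1 - |t|), mul_nonneg (sub_nonneg.2 ht) (sub_nonneg.2 h.le)]

theorem C2_hu_eq (s : ℝ) : ∃ t, |t| ≤ 1 ∧ C2_hu s = t * s - t ^ 2 / 2 := by
  unfold C2_hu
  split_ifs with h
  · exact ⟨s, h, by ring⟩
  · push Not at h
    rcases le_or_gt 0 s with hs | hs
    · refine ⟨1, by simp, ?_⟩
      rw [abs_of_nonneg hs]; ring
    · refine ⟨-1, by simp, ?_⟩
      rw [abs_of_neg hs]; ring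

theorem C2_hu_le (s : ℝ) : C2_hu s ≤ |s| := by
  unfold C2_hu
  split_ifs with h
  · rw [← sq_abs]; nlinarith [abs_nonneg s]
  · linarith

theorem C2_hu_convex : ConvexOn ℝ univ C2_hu := by
  refine ⟨convex_univ, ?_⟩
  intro x _ y _ a b ha hb hab
  obtain ⟨t, ht, he⟩ := C2_hu_eq (a • x + b • y)
  rw [he]
  simp only [smul_eq_mul]
  have h1 := mul_le_mul_of_nonneg_left (C2_hu_ge x t ht) ha
  have h2 := mul_le_mul_of_nonneg_left (C2_hu_ge y t ht) hb
  have h3 : t * (a * x + b * y) - t ^ 2 / 2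
      = a * (t * x - t ^ 2 / 2) + b * (t * y - t ^ 2 / 2) := by
    have : b = 1 - a := by linarith
    subst this
    ring
  linarith

theorem C2_CV_inner {m : ℕ} (l : E m) {θ : ℝ → ℝ} (hθ : ConvexOn ℝ univ θ) :
    CV (fun y : E m => θ (inner ℝ l y)) := by
  refine ⟨convex_univ, ?_⟩
  intro x _ y _ a b ha hb hab
  have h := hθ.2 (mem_univ (inner ℝ l x)) (mem_univ (inner ℝ l y)) ha hb hab
  have e1 : inner ℝ l (a • x + b • y) = a • inner ℝ l x + b • inner ℝ l y := by
    rw [inner_add_right, real_inner_smul_right, real_inner_smul_right]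
    simp
  show θ (inner ℝ l (a • x + b • y)) ≤ a • θ (inner ℝ l x) + b • θ (inner ℝ l y)
  rw [e1]
  exact h

theorem C2_CV_affine {m : ℕ} (a : E m) (c : ℝ) : CV (fun y : E m => inner ℝ a y + c) := by
  refine ⟨convex_univ, ?_⟩
  intro x _ y _ s t hs ht hst
  have e1 : inner ℝ a (s • x + t • y) = s • inner ℝ a x + t • inner ℝ a y := by
    rw [inner_add_right, real_inner_smul_right, real_inner_smul_right]
    simp
  show inner ℝ a (s • x + t • y) + c ≤ s • (inner ℝ a x + c) + t • (inner ℝ a y + c)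
  rw [e1]
  simp only [smul_eq_mul]
  have : t = 1 - s := by linarith
  subst this
  apply le_of_eq
  ring

theorem C2_CV_smul {m : ℕ} {f : E m → ℝ} (hf : CV f) {c : ℝ} (hc : 0 ≤ c) :
    CV (fun y => c * f y) := by
  have := ConvexOn.smul hc hf
  exact this

theorem C2_CV_sq {m : ℕ} (l : E m) : CV (fun y : E m => (inner ℝ l y) ^ 2 / 2) := by
  have h : ConvexOn ℝ univ (fun s : ℝ => s ^ 2 / 2) := by
    refine ⟨convex_univ, ?_⟩
    intro x _ y _ a b ha hb hab
    have : b = 1 - a := by linarith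
    subst this
    simp only [smul_eq_mul]
    nlinarith [mul_nonneg (mul_nonneg ha hb) (sq_nonneg (x - y))]
  exact C2_CV_inner l h

theorem C2_pair_self {m : ℕ} (i₀ : Fin m) (g : E m → ℝ) : pair i₀ g g = fun _ => g := by
  funext j
  unfold pair
  split_ifs <;> rfl

theorem C2_pair_update {m : ℕ} (i₀ : Fin m) (f g : E m → ℝ) :
    pair i₀ f g = Function.update (fun _ => g) i₀ f := by
  funext j
  unfold pair
  by_cases h : j = i₀
  · subst h
    simp
  · simp [h]

theorem core_touch_of (hCut : exists_cut_stmt) (hET : exists_test_stmt) (hPl : B_plateau_stmt)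
    (hSm : B_smul_test_stmt) (hTM : B_test_mono_stmt) (hNN : B_nonneg_stmt) (hCg : B_congr_stmt)
    (hUA : B_update_add_stmt) (hUS : B_update_smul_stmt) (hDi : B_diag_stmt) (hAf : B_affine_stmt)
    (hR1 : B_rank_one_stmt) (hAP : A_pos_stmt) (hFA : flat_add_stmt) : core_touch_stmt := by
  intro m f G i₀ hf hG r hr l hB hA h2 h3
  have hcont : ∀ {h : E m → ℝ}, CV h → Continuous h := fun {h} hh => hh.locallyLipschitz.continuous
  -- the sum has no flat directions
  have hh : CV (fun x => f x + G x) := hf.add hG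
  have hh0 : ∀ v, v ≠ 0 → ¬ FlatAt (fun x => f x + G x) 0 v := by
    intro v hv hfl
    obtain ⟨ha, hb⟩ := (hFA hf hG 0 v).1 hfl
    exact hv (h3 v ha hb)
  obtain ⟨a, c, μ, hμ, h0c, hcut⟩ := hCut hh hh0 (r := r / 2) (by linarith)
  -- the cutting function
  have hl : 0 < 1 + ‖l‖ := by positivity
  have hκ : 0 < μ / (1 + ‖l‖) := by positivity
  set κ := μ / (1 + ‖l‖) with hκdef
  have hκl : κ * ‖l‖ ≤ μ := by
    rw [hκdef, div_mul_eq_mul_div, div_le_iff₀ hl]
    nlinarith [norm_nonneg l]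
  set c' := (f 0 + G 0 + c) / 2 with hc'
  have hc1 : f 0 + G 0 < c' := by
    have : f 0 + G 0 < c := h0c
    rw [hc']; linarith
  have hc2 : c' < c := by
    have : f 0 + G 0 < c := h0c
    rw [hc']; linarith
  let w : E m → ℝ := fun y => κ * C2_hu (inner ℝ l y) + (inner ℝ a y + c')
  have hw : CV w := (C2_CV_smul (C2_CV_inner l C2_hu_convex) hκ.le).add (C2_CV_affine a c')
  let hh' : E m → ℝ := fun y => max (f y + G y) (w y)
  have hhc : CV hh' := hh.sup hw
  have hfar : ∀ y, r / 2 ≤ ‖y‖ → hh' y = f y + G y := by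
    intro y hy
    refine max_eq_left ?_
    have e1 := hcut y hy
    have e2 : κ * C2_hu (inner ℝ l y) ≤ μ * ‖y‖ := by
      have e3 : C2_hu (inner ℝ l y) ≤ ‖l‖ * ‖y‖ := (C2_hu_le _).trans (abs_real_inner_le_norm _ _)
      calc κ * C2_hu (inner ℝ l y) ≤ κ * (‖l‖ * ‖y‖) := mul_le_mul_of_nonneg_left e3 hκ.le
        _ = (κ * ‖l‖) * ‖y‖ := by ring
        _ ≤ μ * ‖y‖ := mul_le_mul_of_nonneg_right hκl (norm_nonneg _)
    show κ * C2_hu (inner ℝ l y) + (inner ℝ a y + c') ≤ f y + G y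
    linarith
  -- near the origin
  have hnear : ∃ ρ > 0, ∀ y : E m, ‖y‖ < ρ →
      hh' y = κ * ((inner ℝ l y) ^ 2 / 2) + (inner ℝ a y + c') := by
    have ho : IsOpen ({y : E m | f y + G y < w y} ∩ {y : E m | |inner ℝ l y| < 1}) := by
      refine (isOpen_lt (hcont hh) (hcont hw)).inter (isOpen_lt ?_ continuous_const)
      fun_prop
    have hmem : (0 : E m) ∈ {y : E m | f y + G y < w y} ∩ {y : E m | |inner ℝ l y| < 1} := by
      refine ⟨?_, by simp⟩
      show f 0 + G 0 < κ * C2_hu (inner ℝ l 0) + (inner ℝ a 0 + c')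
      have : C2_hu 0 = 0 := by simp [C2_hu]
      rw [inner_zero_right, inner_zero_right, this]
      linarith
    obtain ⟨ρ, hρ, hball⟩ := Metric.isOpen_iff.1 ho 0 hmem
    refine ⟨ρ, hρ, fun y hy => ?_⟩
    obtain ⟨e1, e2⟩ := hball (show y ∈ Metric.ball 0 ρ by simpa using hy)
    have e1' : f y + G y < w y := e1
    have e2' : |inner ℝ l y| ≤ 1 := le_of_lt e2
    show max (f y + G y) (w y) = _
    rw [max_eq_right e1'.le]
    show κ * C2_hu (inner ℝ l y) + (inner ℝ a y + c') = _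
    unfold C2_hu
    rw [if_pos e2']
  obtain ⟨ρ, hρ, hnr⟩ := hnear
  -- the plateau function
  obtain ⟨χ, hχ, -, hχ1, hχs⟩ := hET (m := m) (r₁ := 3 * r / 4) (r₂ := r) (by linarith) (by linarith)
  have e1 : B χ (pair i₀ (fun x => f x + G x) G) = 0 := by
    rw [C2_pair_update, hUA hχ (F := fun _ => G) (fun _ => hG) hf hG, ← C2_pair_update,
      ← C2_pair_update, C2_pair_self, hDi hχ hG, hB χ hχ hχs, hA χ hχ hχs, add_zero]
  have e2 : B χ (pair i₀ hh' G) = 0 := by
    rw [← e1]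
    refine hPl hχ (C1_pair_CV i₀ hhc hG) (C1_pair_CV i₀ hh hG) (r₁ := r / 2) (r := 3 * r / 4)
      (by linarith) ?_ hχ1
    intro j x hx
    unfold pair
    split_ifs
    · exact hfar x hx
    · rfl
  -- a test function near the origin
  have hρ2 : 0 < min ρ (3 * r / 4) := lt_min hρ (by linarith)
  obtain ⟨ψ, hψ, -, hψ1, hψs⟩ := hET (m := m) (r₁ := min ρ (3 * r / 4) / 2)
    (r₂ := min ρ (3 * r / 4)) (by linarith) (by linarith)
  have hψ3 : tsupport ψ ⊆ Metric.ball 0 (3 * r / 4) :=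
    hψs.trans (Metric.ball_subset_ball (min_le_right _ _))
  have hψr : tsupport ψ ⊆ Metric.ball 0 r :=
    hψ3.trans (Metric.ball_subset_ball (by linarith))
  have e3 : B ψ (pair i₀ hh' G) = 0 :=
    C1_zero hSm hTM hNN hχ hχ1 (C1_pair_CV i₀ hhc hG) e2 hψ hψ3
  have hsq : CV (fun y : E m => (inner ℝ l y) ^ 2 / 2) := C2_CV_sq l
  have hκsq : CV (fun y : E m => κ * ((inner ℝ l y) ^ 2 / 2)) := C2_CV_smul hsq hκ.le
  have hqa : CV (fun y : E m => κ * ((inner ℝ l y) ^ 2 / 2) + (inner ℝ a y + c')) :=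
    hκsq.add (C2_CV_affine a c')
  have e4 : B ψ (pair i₀ (fun y => κ * ((inner ℝ l y) ^ 2 / 2) + (inner ℝ a y + c')) G) = 0 := by
    rw [← e3]
    refine hCg hψ (C1_pair_CV i₀ hqa hG) (C1_pair_CV i₀ hhc hG) Metric.isOpen_ball hψs ?_
    intro j x hx
    have hx' : ‖x‖ < ρ := by
      have : ‖x‖ < min ρ (3 * r / 4) := by simpa using hx
      exact this.trans_le (min_le_left _ _)
    unfold pair
    split_ifs
    · exact (hnr x hx').symm
    · rfl
  have e5 : B ψ (pair i₀ (fun y => κ * ((inner ℝ l y) ^ 2 / 2)) G) = 0 := by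
    rw [← e4]
    have := hAf ψ (pair i₀ (fun y => κ * ((inner ℝ l y) ^ 2 / 2)) G)
      (fun j => if j = i₀ then a else 0) (fun j => if j = i₀ then c' else 0)
    rw [← this]
    congr 1
    funext j x
    unfold pair
    split_ifs
    · rfl
    · simp
  have e6 : B ψ (pair i₀ (fun y => (inner ℝ l y) ^ 2 / 2) G) = 0 := by
    rw [C2_pair_update, hUS hψ (F := fun _ => G) (fun _ => hG) hsq hκ.le, ← C2_pair_update] at e5
    rcases mul_eq_zero.1 e5 with h | h
    · exact absurd h hκ.ne'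
    · exact h
  have e7 : A ψ (fun x => G x + (inner ℝ l x) ^ 2 / 2) = 0 := by
    rw [hR1 hψ hG i₀ l, e6, hA ψ hψ hψr]
    simp
  have hlast : CV (fun x => G x + (inner ℝ l x) ^ 2 / 2) := hG.add hsq
  have hno : ∀ v, v ≠ 0 → ¬ FlatAt (fun x => G x + (inner ℝ l x) ^ 2 / 2) 0 v := by
    intro v hv hfl
    obtain ⟨ha, hb⟩ := (hFA hG hsq 0 v).1 hfl
    obtain ⟨t, ht⟩ := h2 v ha
    obtain ⟨ε, hε, he⟩ := hb
    have e8 : inner ℝ l v = 0 := by
      simp only [zero_add, zero_sub, inner_neg_right, real_inner_smul_right, inner_zero_right] at he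
      have : (ε * inner ℝ l v) ^ 2 = 0 := by nlinarith
      have h9 : ε * inner ℝ l v = 0 := pow_eq_zero_iff (two_ne_zero) |>.1 this
      rcases mul_eq_zero.1 h9 with h | h
      · exact absurd h hε.ne'
      · exact h
    rw [ht, real_inner_smul_right, real_inner_self_eq_norm_sq] at e8
    rcases mul_eq_zero.1 e8 with h | h
    · exact hv (by rw [ht, h, zero_smul])
    · have : l = 0 := by
        have := pow_eq_zero_iff (two_ne_zero) |>.1 h
        exact norm_eq_zero.1 this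
      exact hv (by rw [ht, this, smul_zero])
  have hpos := hAP hψ hlast hno (r := min ρ (3 * r / 4) / 2) (by linarith) hψ1
  linarith

end Pool.Agent.helper83.SC
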