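import Pool.Agent.helper83.SC.C2

open scoped Pointwise ContDiff
open MeasureTheory Set Filter Topology

namespace Pool.Agent.helper83.SC

theorem core_lower_of (hEE : exists_envelope_stmt) (hAE : A_envelope_stmt)
    (hET : exists_test_stmt) (hPl : B_plateau_stmt)
    (hSm : B_smul_test_stmt) (hTM : B_test_mono_stmt) (hNN : B_nonneg_stmt)
    (hCA : core_above_stmt) (hCT : core_touch_stmt) : core_lower_stmt := by
  intro m f g i₀ hf hg r hr l hB h1 h2 h3
  have hm : 1 ≤ m := i₀.pos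
  have hr2 : 0 < r / 2 := by linarith
  obtain ⟨G, hG, hgG, hGg, hmax⟩ := hEE hm hg hr2
  obtain ⟨v, hv⟩ := h1
  rcases lt_or_eq_of_le (hgG 0) with h0 | h0
  · exact hv (hCA i₀ hf hg hG hr2 (by linarith) hB hgG hGg h0 v)
  -- the envelope touches
  have hflat : ∀ w, FlatAt G 0 w → FlatAt g 0 w := by
    rintro w ⟨ε, hε, he⟩
    refine ⟨ε, hε, le_antisymm ?_ ?_⟩
    · have e1 := hgG (0 + ε • w)
      have e2 := hgG (0 - ε • w)
      rw [h0]
      linarith
    · have hg' : ConvexOn ℝ univ g := hg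
      have := hg'.2 (mem_univ (0 + ε • w)) (mem_univ (0 - ε • w))
        (show (0 : ℝ) ≤ 1 / 2 by norm_num) (show (0 : ℝ) ≤ 1 / 2 by norm_num) (by norm_num)
      have e3 : (1 / 2 : ℝ) • (0 + ε • w) + (1 / 2 : ℝ) • (0 - ε • w) = (0 : E m) := by
        simp
      rw [e3] at this
      simp only [smul_eq_mul] at this
      linarith
  obtain ⟨χ, hχ, -, hχ1, hχs⟩ := hET (m := m) (r₁ := 3 * r / 4) (r₂ := r) (by linarith) (by linarith)
  have e1 : B χ (pair i₀ f G) = 0 := by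
    rw [← hB χ hχ hχs]
    refine hPl hχ (C1_pair_CV i₀ hf hG) (C1_pair_CV i₀ hf hg) (r₁ := r / 2) (r := 3 * r / 4)
      (by linarith) ?_ hχ1
    intro j x hx
    unfold pair
    split_ifs
    · rfl
    · exact hGg x hx
  refine hCT i₀ hf hG hr2 l ?_ ?_ ?_ ?_
  · intro φ hφ hφs
    exact C1_zero hSm hTM hNN hχ hχ1 (C1_pair_CV i₀ hf hG) e1 hφ
      (hφs.trans (Metric.ball_subset_ball (by linarith)))
  · intro φ hφ hφs
    exact hAE hr2 hG hGg hmax hφ hφs
  · intro w hw
    exact h2 w (hflat w hw)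
  · intro w hwf hwG
    exact h3 w hwf (hflat w hwG)

end Pool.Agent.helper83.SC
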