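import Mathlib

/-!
Schneider's conjecture on the support of mixed area measures, in all dimensions.
Definitions: mixed volumes and mixed area measures, touching cones, extreme directions; the
Alexandrov measure of a convex function on `ℝ^m` and its polarization.
-/

open scoped Pointwise ContDiff

namespace Pool.Agent.helper83.SC

/-! ### Convex bodies in Euclidean space -/

/-- Euclidean space. -/
abbrev E (m : ℕ) : Type := EuclideanSpace ℝ (Fin m)

/-- Convex bodies: nonempty compact convex sets. -/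
def IsBody {m : ℕ} (K : Set (E m)) : Prop := IsCompact K ∧ Convex ℝ K ∧ K.Nonempty

/-- The support function `h_K(u) = max {⟨x,u⟩ : x ∈ K}`. -/
noncomputable def hE {m : ℕ} (K : Set (E m)) (u : E m) : ℝ := sSup ((fun x => inner ℝ x u) '' K)

/-- The volume. -/
noncomputable def vol {m : ℕ} (K : Set (E m)) : ℝ := (MeasureTheory.volume K).toReal

/-- The mixed volume of `n` bodies in `ℝ^n`, by polarization of the volume:
`V(C_1, …, C_n) = (1 / n!) ∑_I (-1)^(n - |I|) vol (∑_{i ∈ I} C_i)`. -/
noncomputable def mixedVol {n : ℕ} (C : Fin n → Set (E n)) : ℝ :=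
  (1 / (n.factorial : ℝ)) * ∑ I : Finset (Fin n), (-1 : ℝ) ^ (n - I.card) * vol (∑ i ∈ I, C i)

/-- `S` is the mixed area measure of the `m` bodies `C` in `ℝ^(m+1)`: a finite Borel measure on
the unit sphere with `V(M, C_1, …, C_m) = (1/(m+1)) ∫ h_M dS` for all convex bodies `M`. -/
def IsMixedArea {m : ℕ} (C : Fin m → Set (E (m + 1))) (S : MeasureTheory.Measure (E (m + 1))) :
    Prop :=
  MeasureTheory.IsFiniteMeasure S ∧ S (Metric.sphere (0 : E (m + 1)) 1)ᶜ = 0 ∧
    ∀ M : Set (E (m + 1)), IsBody M →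
      mixedVol (Fin.cons M C : Fin (m + 1) → Set (E (m + 1)))
        = (1 / ((m : ℝ) + 1)) * ∫ u, hE M u ∂S

/-- The normal cone of `C` at `x`. -/
def normalCone {m : ℕ} (C : Set (E m)) (x : E m) : Set (E m) :=
  {v | ∀ y ∈ C, inner ℝ v (y - x) ≤ 0}

/-- `T` is the touching cone of `C` at `u`: a face of one of the normal cones of `C` that contains
`u` in its relative interior. -/
def IsTouchingCone {m : ℕ} (C : Set (E m)) (u : E m) (T : Set (E m)) : Prop :=
  (∃ x ∈ C, IsExtreme ℝ (normalCone C x) T) ∧ Convex ℝ T ∧ u ∈ intrinsicInterior ℝ T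

/-- The dimension of the orthogonal complement of (the span of) the touching cone of `C` at `u`
is at least `k`. -/
def DimPerpGE {m : ℕ} (C : Set (E m)) (u : E m) (k : ℕ) : Prop :=
  ∃ T, IsTouchingCone C u T ∧ k ≤ Module.finrank ℝ (Submodule.span ℝ T)ᗮ

/-- The `(C_1, …, C_m)`-extreme directions: the unit vectors `u` such that
`dim T(∑_{i ∈ I} C_i, u)^⊥ ≥ |I|` for every set `I` of indices. -/
def extremeDirections {m : ℕ} (C : Fin m → Set (E (m + 1))) : Set (E (m + 1)) :=
  {u | u ∈ Metric.sphere (0 : E (m + 1)) 1 ∧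
    ∀ I : Finset (Fin m), DimPerpGE (∑ i ∈ I, C i) u I.card}

/-- The second difference of `f` at `y` in the direction `v` vanishes for small steps. -/
def FlatAt {m : ℕ} (f : E m → ℝ) (y v : E m) : Prop :=
  ∃ ε > (0 : ℝ), f (y + ε • v) + f (y - ε • v) = 2 * f y

/-! ### Convex functions on Euclidean space -/

/-- Convex functions (finite everywhere). -/
def CV {m : ℕ} (f : E m → ℝ) : Prop := ConvexOn ℝ Set.univ f

/-- Nonnegative test functions. -/
def Test {m : ℕ} (φ : E m → ℝ) : Prop :=
  ContDiff ℝ ∞ φ ∧ HasCompactSupport φ ∧ ∀ x, 0 ≤ φ x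

/-- `y` minimizes `f - ⟨p, ·⟩`, i.e. `p` is a subgradient of `f` at `y`. -/
def IsArgmin {m : ℕ} (f : E m → ℝ) (p y : E m) : Prop :=
  ∀ z, f y - inner ℝ p y ≤ f z - inner ℝ p z

/-- The value of `φ` at the minimizer of `f - ⟨p, ·⟩` (`0` if there is none). -/
noncomputable def sel {m : ℕ} (φ f : E m → ℝ) (p : E m) : ℝ := sSup (φ '' {y | IsArgmin f p y})

/-- The integral of `φ` against the Monge-Ampere measure (Alexandrov) of the convex function `f`. -/
noncomputable def A {m : ℕ} (φ f : E m → ℝ) : ℝ := ∫ p, sel φ f p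

/-- The integral of `φ` against the mixed Monge-Ampere measure, by polarization. -/
noncomputable def B {m : ℕ} (φ : E m → ℝ) (F : Fin m → E m → ℝ) : ℝ :=
  (1 / (m.factorial : ℝ)) *
    ∑ J : Finset (Fin m), (-1 : ℝ) ^ (m - J.card) * A φ (fun x => ∑ j ∈ J, F j x)

/-- The family with `f` at the place `i₀` and `g` at all other places. -/
def pair {m : ℕ} (i₀ : Fin m) (f g : E m → ℝ) : Fin m → E m → ℝ := fun j => if j = i₀ then f else g

/-- Convex conjugate (with junk value `0` where it is infinite). -/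
noncomputable def conj {m : ℕ} (f : E m → ℝ) (p : E m) : ℝ := ⨆ y, (inner ℝ p y - f y)

/-- The standard basis. -/
noncomputable def e {m : ℕ} (i : Fin m) : E m := EuclideanSpace.single i (1 : ℝ)

/-- Partial derivatives. -/
noncomputable def pd {m : ℕ} (i : Fin m) (f : E m → ℝ) (x : E m) : ℝ := fderiv ℝ f x (e i)

/-- The Hessian matrix. -/
noncomputable def hess {m : ℕ} (f : E m → ℝ) (x : E m) : Matrix (Fin m) (Fin m) ℝ :=
  Matrix.of fun i j => pd i (pd j f) x

/-- The Laplacian. -/
noncomputable def lap {m : ℕ} (f : E m → ℝ) (x : E m) : ℝ := ∑ i, pd i (pd i f) x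

/-- The mixed discriminant of `m` matrices of size `m`. -/
noncomputable def mD {m : ℕ} (M : Fin m → Matrix (Fin m) (Fin m) ℝ) : ℝ :=
  (1 / (m.factorial : ℝ)) * ∑ σ : Equiv.Perm (Fin m), (Matrix.of fun i j => M (σ i) i j).det

/-! ### Bodies in `E m × ℝ` -/

/-- The support function of a set in `E m × ℝ`. -/
noncomputable def H {m : ℕ} (K : Set (E m × ℝ)) (y : E m) (s : ℝ) : ℝ :=
  sSup ((fun x : E m × ℝ => inner ℝ x.1 y + x.2 * s) '' K)

/-- Its restriction to the hyperplane at height one. -/
noncomputable def F {m : ℕ} (K : Set (E m × ℝ)) (y : E m) : ℝ := H K y 1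

/-- Convex bodies in `E m × ℝ`. -/
def Body {m : ℕ} (K : Set (E m × ℝ)) : Prop := IsCompact K ∧ Convex ℝ K ∧ K.Nonempty

/-- The function on the upper half space with restriction `φ` to the hyperplane at height one. -/
noncomputable def tilde {m : ℕ} (φ : E m → ℝ) (y : E m) (s : ℝ) : ℝ :=
  if 0 < s then s * φ (s⁻¹ • y) else 0

/-! ### Charts -/

/-- The point at height one above `y`, in the coordinates given by an orthonormal basis. -/
noncomputable def emb {m : ℕ} (b : OrthonormalBasis (Fin (m + 1)) ℝ (E (m + 1))) (y : E m) :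
    E (m + 1) := (∑ i : Fin m, y i • b i.castSucc) + b (Fin.last m)

/-- The support function of `K` in the chart given by an orthonormal basis. -/
noncomputable def chart {m : ℕ} (b : OrthonormalBasis (Fin (m + 1)) ℝ (E (m + 1)))
    (K : Set (E (m + 1))) (y : E m) : ℝ := hE K (emb b y)

/-- The chart coordinates. -/
noncomputable def coord {m : ℕ} (b : OrthonormalBasis (Fin (m + 1)) ℝ (E (m + 1)))
    (v : E (m + 1)) : E m × ℝ :=
  (WithLp.toLp 2 fun i : Fin m => inner ℝ (b i.castSucc) v, inner ℝ (b (Fin.last m)) v)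

/-- The function `tilde φ` on `E (m + 1)`. -/
noncomputable def lift {m : ℕ} (b : OrthonormalBasis (Fin (m + 1)) ℝ (E (m + 1)))
    (φ : E m → ℝ) (v : E (m + 1)) : ℝ := tilde φ (coord b v).1 (coord b v).2

end Pool.Agent.helper83.SC
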