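import Pool.Agent.helper47.SC.Spec

set_option autoImplicit false

namespace Pool.Agent.SC

open MeasureTheory Metric

/-- One bad set. -/
theorem RPD_one (s : C3) (c : ℝ) (i : ℕ) (hs : s ∈ closedBall (0 : C3) (1 / 16))
    (hc : 4 * 2 ^ i ≤ c) :
    volume {t : C3 | t ∈ closedBall (0 : C3) (1 / 16) ∧ c * ‖t.1 - s.1‖ < ‖t.2 - s.2‖} ≤
      (4⁻¹ * (2⁻¹) ^ i) * volume (closedBall (0 : C3) (1 / 16)) := by
  have hc0 : 0 < c := lt_of_lt_of_le (by positivity) hc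
  have hsub : {t : C3 | t ∈ closedBall (0 : C3) (1 / 16) ∧ c * ‖t.1 - s.1‖ < ‖t.2 - s.2‖} ⊆
      closedBall s.1 (1 / (8 * c)) ×ˢ closedBall (0 : ℂ × ℂ) (1 / 16) := by
    rintro t ⟨ht, h⟩
    rw [mem_closedBall_zero_iff] at ht hs
    have h2 : ‖t.2‖ ≤ 1 / 16 := (norm_snd_le t).trans ht
    have h3 : ‖s.2‖ ≤ 1 / 16 := (norm_snd_le s).trans hs
    have h4 : ‖t.2 - s.2‖ ≤ 1 / 8 := (norm_sub_le _ _).trans (by linarith)
    refine ⟨?_, ?_⟩
    · rw [mem_closedBall, dist_eq_norm, le_div_iff₀ (by positivity)]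
      nlinarith
    · rw [mem_closedBall_zero_iff]
      exact h2
  refine (measure_mono hsub).trans ?_
  have e0 : closedBall (0 : C3) (1 / 16) =
      closedBall (0 : ℂ) (1 / 16) ×ˢ closedBall (0 : ℂ × ℂ) (1 / 16) :=
    (closedBall_prod_same (0 : ℂ) (0 : ℂ × ℂ) (1 / 16)).symm
  have e1 : (volume : Measure C3) = (volume : Measure ℂ).prod (volume : Measure (ℂ × ℂ)) :=
    Measure.volume_eq_prod ℂ (ℂ × ℂ)
  rw [e0, e1, Measure.prod_prod, Measure.prod_prod, ← mul_assoc]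
  refine mul_le_mul_left (α := ENNReal) ?_ _
  rw [Complex.volume_closedBall, Complex.volume_closedBall, ← mul_assoc]
  refine mul_le_mul_left (α := ENNReal) ?_ _
  have h5 : (1 : ℝ) / (8 * c) ≤ (2⁻¹ * (2⁻¹) ^ i) * (1 / 16) := by
    rw [div_le_iff₀ (by positivity)]
    have h6 : (2⁻¹ : ℝ) ^ i * 2 ^ i = 1 := by
      rw [← mul_pow]
      norm_num
    have h7 : (0 : ℝ) < (2⁻¹) ^ i := by positivity
    nlinarith [mul_le_mul_of_nonneg_left hc h7.le]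
  have h8 : ENNReal.ofReal (1 / (8 * c)) ≤ (2⁻¹ * (2⁻¹) ^ i) * ENNReal.ofReal (1 / 16) := by
    refine (ENNReal.ofReal_le_ofReal h5).trans ?_
    rw [ENNReal.ofReal_mul (by positivity), ENNReal.ofReal_mul (by positivity),
      ENNReal.ofReal_pow (by positivity), ENNReal.ofReal_inv_of_pos (by norm_num)]
    norm_num
  refine (pow_le_pow_left' h8 2).trans ?_
  rw [mul_pow]
  refine mul_le_mul_left (α := ENNReal) ?_ _
  have h9 : ((2⁻¹ : ENNReal) * (2⁻¹) ^ i) ^ 2 = 4⁻¹ * ((2⁻¹) ^ i * (2⁻¹) ^ i) := by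
    have : (4⁻¹ : ENNReal) = 2⁻¹ * 2⁻¹ := by
      rw [← ENNReal.mul_inv (by simp) (by simp)]
      norm_num
    rw [this]
    ring
  rw [h9]
  refine mul_le_mul_right (α := ENNReal) ?_ _
  have h10 : (2⁻¹ : ENNReal) ^ i ≤ 1 := pow_le_one' (by simp) i
  calc (2⁻¹ : ENNReal) ^ i * (2⁻¹) ^ i ≤ (2⁻¹) ^ i * 1 := mul_le_mul_right h10 _
    _ = (2⁻¹) ^ i := mul_one _

theorem RPD : RPD_stmt := by
  intro σ c hσ hc
  have hsub : {t : C3 | t ∈ closedBall (0 : C3) (1 / 16) ∧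
      ∃ i, c i * ‖t.1 - (σ i).1‖ < ‖t.2 - (σ i).2‖} ⊆
      ⋃ i, {t : C3 | t ∈ closedBall (0 : C3) (1 / 16) ∧
        c i * ‖t.1 - (σ i).1‖ < ‖t.2 - (σ i).2‖} := by
    rintro t ⟨ht, i, hi⟩
    exact Set.mem_iUnion.2 ⟨i, ht, hi⟩
  refine (measure_mono hsub).trans ((measure_iUnion_le _).trans ?_)
  refine (ENNReal.tsum_le_tsum fun i => RPD_one (σ i) (c i) i (hσ i) (hc i)).trans ?_
  rw [ENNReal.tsum_mul_right, ENNReal.tsum_mul_left, ENNReal.tsum_geometric,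
    ENNReal.one_sub_inv_two, inv_inv, ENNReal.div_eq_inv_mul]
  refine mul_le_mul_left (α := ENNReal) ?_ _
  have : (4⁻¹ : ENNReal) = 2⁻¹ * 2⁻¹ := by
    rw [← ENNReal.mul_inv (by simp) (by simp)]
    norm_num
  rw [this, mul_assoc, ENNReal.inv_mul_cancel (by simp) (by simp), mul_one]

end Pool.Agent.SC
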