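import Pool.Agent.helper83.SC.LO
import Pool.Agent.helper11.SC.BP3
import Pool.Agent.helper11.SC.CP
import Pool.Agent.helper11.SC.TF
import Pool.Agent.helper13.SC.FS
import Pool.Agent.helper13.SC.LA3
import Pool.Agent.helper13.SC.TC3
import Pool.Agent.helper18.SC.CH2
import Pool.Agent.helper18.SC.CU
import Pool.Agent.helper18.SC.UP
import Pool.Agent.helper21.SC.CH1
import Pool.Agent.helper25.SC.UA1
import Pool.Agent.helper25.SC.UA2
import Pool.Agent.helper26.SC.AP2
import Pool.Agent.helper26.SC.LU
import Pool.Agent.helper3.SC.TC1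
import Pool.Agent.helper3.SC.TC2
import Pool.Agent.helper33.SC.UD
import Pool.Agent.helper35.SC.LA1
import Pool.Agent.helper35.SC.LA2
import Pool.Agent.helper36.SC.BP1
import Pool.Agent.helper39.SC.EN1
import Pool.Agent.helper39.SC.GL1
import Pool.Agent.helper39.SC.GL2
import Pool.Agent.helper39.SC.UB
import Pool.Agent.helper41.SC.AL1
import Pool.Agent.helper41.SC.AL2
import Pool.Agent.helper41.SC.AL3
import Pool.Agent.helper43.SC.TB
import Pool.Agent.helper46.SC.BP2
import Pool.Agent.helper46.SC.BP4
import Pool.Agent.helper46.SC.BP5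
import Pool.Agent.helper46.SC.BS
import Pool.Agent.helper51.SC.LI
import Pool.Agent.helper53.SC.AL4
import Pool.Agent.helper53.SC.HS1
import Pool.Agent.helper53.SC.HS2
import Pool.Agent.helper58.SC.MO
import Pool.Agent.helper77.SC.AP1
import Pool.Agent.helper77.SC.EN2
import Pool.Agent.helper77.SC.JI
import Pool.Agent.helper79.SC.WA
import Pool.Agent.helper90.SC.UE
import Pool.Agent.helper91.SC.UC
import Pool.Agent.helper91.SC.UF
import Pool.Agent.helper92.SC.GA
import Pool.Agent.helper92.SC.JF
import Pool.Agent.helper92.SC.VO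

/-! Assembly of the modules. -/

open scoped Pointwise ContDiff
open MeasureTheory Set Filter Topology

namespace Pool.Agent.helper83.SC

/-- The lower inclusion, in terms of the analytic modules. -/
theorem W_lower (hAL1 : ae_argmin_unique_stmt) (hAL2 : alexandrov_smooth_stmt)
    (hSI : sel_integrable_stmt) (hTA : tendsto_A_stmt) (hTB : exists_test_body_stmt)
    (hWA : flat_of_harmonic_stmt) : lower_stmt := by
  have hAS : A_smooth_stmt := A_smooth_of hAL2 hTA hess_add_of hess_normSq_of continuous_hess_of
  have hBS : B_smooth_stmt := B_smooth_of mD_polar_of hess_add_of hess_sum_of continuous_hess_of hAS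
  have hTBB : tendsto_B_stmt := tendsto_B_of hTA
  have hSh : B_shift_stmt :=
    B_shift_of mD_polar_of hess_add_of hess_sum_of continuous_hess_of hAS hTA exists_smooth_of
  have hNN : B_nonneg_stmt := B_nonneg_of mD_nonneg_of hess_psd_of exists_smooth_of hBS hTBB
  have hDi : B_diag_stmt := B_diag_of mD_diag_of exists_smooth_of hTA hAS hBS hTBB
  have hMo : B_mono_stmt :=
    B_mono_of mD_mono_of hess_psd_of hess_add_of continuous_hess_of exists_smooth_of hBS hTBB
  have hUA : B_update_add_stmt :=
    B_update_add_of mD_update_add_of hess_add_of continuous_hess_of hBS hTBB exists_smooth_of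
  have hUS : B_update_smul_stmt :=
    B_update_smul_of mD_update_smul_of hess_smul_of hBS hTBB exists_smooth_of
  have hMul : B_mul_stmt := B_mul_of hUS
  have hAf : B_affine_stmt := B_affine_of A_affine_of
  have hSm : B_smul_test_stmt := B_smul_test_of A_smul_test_of
  have hAT : A_add_test_stmt := A_add_test_of hAL1 hSI
  have hTM : B_test_mono_stmt := B_test_mono_of hAT hNN
  have hCg : B_congr_stmt := B_congr_of (A_congr_of hAL1)
  have hPl : B_plateau_stmt := B_plateau_of (A_plateau_of hAL1)
  have hLa : B_lap_stmt :=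
    B_lap_of mD_trace_of hess_normSq_of trace_hess_of hBS hTBB exists_smooth_of loc_bdd_of
  have hR1 : B_rank_one_stmt :=
    B_rank_one_of mD_rank_one_of hess_add_of hess_rank_one_of continuous_hess_of exists_smooth_of
      hTA hAS hBS hTBB
  have hAP : A_pos_stmt := A_pos_of exists_cut hSI
  have hCA : core_above_stmt :=
    core_above_of (exists_strong_of glue_of) exists_test hPl hSm hTM hNN hCg hMo hLa hWA
  have hCT : core_touch_stmt :=
    core_touch_of exists_cut exists_test hPl hSm hTM hNN hCg hUA hUS hDi hAf hR1 hAP flat_add_of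
  have hCL : core_lower_stmt :=
    core_lower_of exists_envelope_of (A_envelope_of hAL1) exists_test hPl hSm hTM hNN hCA hCT
  have hLI : local_identity_stmt :=
    local_identity_of hSh (integral_conj_sub_of hAL1 hSI) (A_interval_of hTA) Body_add H_add F_CV
      volume_sub hTB coord_facts_of hE_facts_of isBody_sum_of chart_CV_of
  have hME : mem_extreme_chart_stmt :=
    mem_extreme_chart_of (mem_extreme_iff_of touching_span_of flat_sum_of isBody_sum_of hE_facts_of)
      hE_facts_of flat_submodule_of
  exact @lower_of hME hCL hLI chart_CV_of exists_basis_of hE_facts_of flat_submodule_of flat_add_of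
    hMo hMul hNN

/-- The upper inclusion, in terms of the analytic modules. -/
theorem W_upper (hAL1 : ae_argmin_unique_stmt) (hAL2 : alexandrov_smooth_stmt)
    (hSI : sel_integrable_stmt) (hTA : tendsto_A_stmt) (hTB : exists_test_body_stmt)
    (hUE : exists_test_subgr_stmt) : upper_stmt := by
  have hAS : A_smooth_stmt := A_smooth_of hAL2 hTA hess_add_of hess_normSq_of continuous_hess_of
  have hBS : B_smooth_stmt := B_smooth_of mD_polar_of hess_add_of hess_sum_of continuous_hess_of hAS
  have hTBB : tendsto_B_stmt := tendsto_B_of hTA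
  have hSh : B_shift_stmt :=
    B_shift_of mD_polar_of hess_add_of hess_sum_of continuous_hess_of hAS hTA exists_smooth_of
  have hUS : B_update_smul_stmt :=
    B_update_smul_of mD_update_smul_of hess_smul_of hBS hTBB exists_smooth_of
  have hMul : B_mul_stmt := B_mul_of hUS
  have hLe : B_le_A_stmt :=
    B_le_A_of mD_le_det_of hess_psd_of hess_sum_of continuous_hess_of exists_smooth_of hTA hAS hBS
      hTBB
  have hLI : local_identity_stmt :=
    local_identity_of hSh (integral_conj_sub_of hAL1 hSI) (A_interval_of hTA) Body_add H_add F_CV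
      volume_sub hTB coord_facts_of hE_facts_of isBody_sum_of chart_CV_of
  have hME : mem_extreme_chart_stmt :=
    mem_extreme_chart_of (mem_extreme_iff_of touching_span_of flat_sum_of isBody_sum_of hE_facts_of)
      hE_facts_of flat_submodule_of
  have hNP : null_piece_stmt :=
    null_piece_of (slice_small_of (loc_lip_of loc_bdd_of)) volume_le_of_slices_of subgr_compact_of
      subgr_bdd_of hUE piece_closed_of hMul hLe
  have hCU : core_upper_stmt := core_upper_of flat_sum_of mem_piece_of hNP
  exact @upper_of hME hCU hLI chart_CV_of exists_basis_of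

/-- The lower inclusion (all but one of the bodies are positively proportional up to a
summand). -/
theorem W_lower' : lower_stmt := by
  have hLL : loc_lip_stmt := loc_lip_of loc_bdd_of
  have hTD : tendsto_diag_stmt := tendsto_diag_of hLL
  have hSI : sel_integrable_stmt :=
    sel_integrable_of ae_argmin_unique_of alexandrov_smooth_of exists_smooth_of hLL hTD
  have hTA : tendsto_A_stmt := tendsto_A_of ae_argmin_unique_of hSI hLL hTD
  exact @W_lower ae_argmin_unique_of alexandrov_smooth_of hSI hTA exists_test_body_of
    (flat_of_harmonic_of hess_psd_of trace_hess_of)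

/-- The upper inclusion. -/
theorem W_upper' : upper_stmt := by
  have hLL : loc_lip_stmt := loc_lip_of loc_bdd_of
  have hTD : tendsto_diag_stmt := tendsto_diag_of hLL
  have hSI : sel_integrable_stmt :=
    sel_integrable_of ae_argmin_unique_of alexandrov_smooth_of exists_smooth_of hLL hTD
  have hTA : tendsto_A_stmt := tendsto_A_of ae_argmin_unique_of hSI hLL hTD
  exact @W_upper ae_argmin_unique_of alexandrov_smooth_of hSI hTA exists_test_body_of
    (exists_test_subgr_of subgr_compact_of)

theorem W_main (hlow : lower_stmt) (hupp : upper_stmt) {m : ℕ} (hm : 1 ≤ m)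
    (C : Fin m → Set (E (m + 1))) (hC : ∀ i, IsBody (C i))
    (S : Measure (E (m + 1))) (hS : IsMixedArea C S) :
    {u | ∀ U : Set (E (m + 1)), IsOpen U → u ∈ U → 0 < S U} ⊆ closure (extremeDirections C) ∧
    ((∃ i₀ : Fin m, ∀ i j, i ≠ i₀ → j ≠ i₀ →
        ∃ c : ℝ, 0 < c ∧ ∃ D : Set (E (m + 1)), IsBody D ∧ C i = c • C j + D) →
      {u | ∀ U : Set (E (m + 1)), IsOpen U → u ∈ U → 0 < S U} = closure (extremeDirections C)) := by
  have hup : {u | ∀ U : Set (E (m + 1)), IsOpen U → u ∈ U → 0 < S U} ⊆
      closure (extremeDirections C) := by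
    intro u h
    simp only [mem_ofPred_eq] at h
    by_contra hcl
    have hsph : u ∈ Metric.sphere (0 : E (m + 1)) 1 := by
      by_contra hu
      have h1 := h (Metric.sphere (0 : E (m + 1)) 1)ᶜ Metric.isClosed_sphere.isOpen_compl hu
      rw [hS.2.1] at h1
      exact lt_irrefl _ h1
    obtain ⟨U', h1, h2, h3⟩ := hupp hm hC hS hsph isClosed_closure.isOpen_compl hcl
      (fun v hv hvE => hv (subset_closure hvE))
    have := h U' h1 h2
    rw [h3] at this
    exact lt_irrefl _ this
  refine ⟨hup, ?_⟩
  rintro ⟨i₀, hp⟩
  refine subset_antisymm hup ?_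
  intro u h U hU huU
  obtain ⟨v, hvU, hvE⟩ := mem_closure_iff.1 h U hU huU
  exact pos_iff_ne_zero.2 (hlow hm hC i₀ hp hS hvE hU hvU)

end Pool.Agent.helper83.SC
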